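import Mathlib

open Polynomial Filter Topology

namespace Pool.Agent.Lib.MP_83ec3d_an

/-- The weight sequences of the problem. -/
def Admissible (ω : ℕ → ℝ) : Prop :=
  (∀ k, 0 < ω k) ∧ ω 0 = 1 ∧ Tendsto (fun k => ω k / ω (k + 1)) atTop (𝓝 1)

/-- The squared norm of a polynomial in `H²_ω`. -/
noncomputable def normSq (ω : ℕ → ℝ) (p : ℂ[X]) : ℝ := ∑ k ∈ p.support, ω k * ‖p.coeff k‖ ^ 2

/-- `q` is the `n`-th optimal polynomial approximant of `1 / f` in `H²_ω`. -/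
def IsOPA (ω : ℕ → ℝ) (f : ℂ[X]) (n : ℕ) (q : ℂ[X]) : Prop :=
  q.natDegree ≤ n ∧ ∀ p : ℂ[X], p.natDegree ≤ n → normSq ω (q * f - 1) ≤ normSq ω (p * f - 1)

/-- `1 - q_n f → 0` uniformly on the compact subsets of the closed disc minus the zeros of `f`. -/
def Converges (ω : ℕ → ℝ) (f : ℂ[X]) : Prop :=
  ∀ q : ℕ → ℂ[X], (∀ n, IsOPA ω f n (q n)) → ∀ K : Set ℂ, IsCompact K →
    K ⊆ Metric.closedBall 0 1 \ {z | f.IsRoot z} →
    TendstoUniformlyOn (fun n z => 1 - (q n).eval z * f.eval z) 0 atTop K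

/-- The property of Q1. -/
def HasProperty (ω : ℕ → ℝ) : Prop :=
  ∀ f : ℂ[X], (∀ z, f.IsRoot z → 1 ≤ ‖z‖) → Converges ω f

end Pool.Agent.Lib.MP_83ec3d_an
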