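import Pool.Agent.Lib.MP_83ec3d_an.Key

open Polynomial Finset Filter Topology Asymptotics

namespace Pool.Agent.Lib.MP_83ec3d_an

variable {a : ℕ → ℝ} {κ : ℝ}

theorem ps_shift (ha : ∀ k, 0 < a k) (h1 : 1 ≤ κ) (hκ : ∀ k, a (k + 1) ≤ κ * a k) {k : ℕ}
    (hk : 1 ≤ k) (i : ℕ) : ps a (k + i) ≤ (1 + κ) ^ i * ps a k := by
  induction i with
  | zero => simp
  | succ i ih =>
    obtain ⟨k, rfl⟩ := Nat.exists_eq_add_of_le' hk
    have h2 : a (k + i) ≤ ps a (k + 1 + i) :=
      single_le_sum (fun k _ => (ha k).le) (mem_range.mpr (by omega))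
    have h3 := hκ (k + i)
    have h4 := mul_le_mul_of_nonneg_left h2 (by linarith : 0 ≤ κ)
    have h5 := mul_le_mul_of_nonneg_left ih (by linarith : 0 ≤ 1 + κ)
    rw [← add_assoc, ps, sum_range_succ, ← ps, pow_succ', mul_assoc, add_right_comm k 1 i] at *
    linarith

theorem up_shift (h1 : 1 ≤ κ) (hκ : ∀ k, a (k + 1) ≤ κ * a k) (k i : ℕ) :
    a (k + i) ≤ κ ^ i * a k := by
  induction i with
  | zero => simp
  | succ i ih =>
    rw [pow_succ', mul_assoc]
    exact (hκ _).trans (mul_le_mul_of_nonneg_left ih (by positivity))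

theorem ratio_lim (ha : ∀ k, 0 < a k) (hr : Tendsto (fun k => a (k + 1) / a k) atTop (𝓝 1))
    (i : ℕ) : Tendsto (fun k => a (k + i) / a k) atTop (𝓝 1) := by
  induction i with
  | zero => simp [(ha _).ne']
  | succ i ih =>
    have := (hr.comp (tendsto_add_atTop_nat i)).mul ih
    rw [mul_one] at this
    refine this.congr fun k => ?_
    have := ha (k + i)
    simp only [Function.comp]
    field_simp
    rfl

theorem small_A (ha : ∀ k, 0 < a k) (h1 : 1 ≤ κ) (hκ : ∀ k, a (k + 1) ≤ κ * a k)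
    (hr : Tendsto (fun k => a (k + 1) / a k) atTop (𝓝 1)) (hs : Tendsto (ps a) atTop atTop)
    {μ : ℕ} {G : ℝ} (hG : 0 ≤ G) (hR : ∀ k, 1 ≤ k → Rem a μ k (G / ps a k))
    (E : ℕ → ℝ) (D : ℕ) (C : ℝ) (hC : 0 ≤ C) (hE : ∀ n, 0 ≤ E n)
    (H : ∀ n k Γ, 0 ≤ Γ → k + D ≤ n → Rem a μ k Γ → E n ≤ C * Γ) : Small a E := by
  have hb : E =O[atTop] fun n => (ps a (n + 1))⁻¹ := by
    refine IsBigO.of_bound (C * G * (1 + κ) ^ (D + 1)) ?_
    filter_upwards [eventually_ge_atTop (D + 1)] with n hn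
    obtain ⟨k, rfl⟩ := Nat.exists_eq_add_of_le' (Nat.le_of_succ_le hn)
    have p1 := ps_pos ha (show 1 ≤ k by omega)
    have p2 := ps_pos ha (show 1 ≤ k + D + 1 by omega)
    rw [Real.norm_of_nonneg (hE _), Real.norm_of_nonneg (by positivity)]
    refine (H _ k _ (by positivity) le_rfl (hR k (by omega))).trans ?_
    rw [← mul_div_assoc, ← div_eq_mul_inv, div_le_div_iff₀ p1 p2, mul_assoc (C * G)]
    exact mul_le_mul_of_nonneg_left (ps_shift ha h1 hκ (by omega) (D + 1)) (by positivity)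
  have key : ∀ θ : ℕ → ℝ, Tendsto θ atTop (𝓝 0) →
      Tendsto (fun n => (∑ j ∈ range (n + 1), θ j * a j) * E n) atTop (𝓝 0) := fun θ hθ => by
    have h2 : (fun j => θ j * a j) =o[atTop] a := by
      simpa using ((isLittleO_one_iff ℝ).mpr hθ).mul_isBigO (isBigO_refl a atTop)
    have h3 := ((h2.sum_range (fun k => (ha k).le) hs).comp_tendsto
      (tendsto_add_atTop_nat 1)).mul_isBigO hb
    refine (isLittleO_one_iff ℝ).mp (h3.congr_right fun n => ?_)
    exact mul_inv_cancel₀ (ps_pos ha (show 1 ≤ n + 1 by omega)).ne'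
  have e1 : Tendsto E atTop (𝓝 0) :=
    hb.trans_tendsto (hs.comp (tendsto_add_atTop_nat 1)).inv_tendsto_atTop
  refine ⟨e1, fun l => ?_, fun i => ?_⟩
  · have := (key (fun j => a (j + (l + 1)) / a j - a (j + l) / a j)
      (by simpa using (ratio_lim ha hr (l + 1)).sub (ratio_lim ha hr l))).add (e1.const_mul (a l))
    rw [mul_zero, add_zero] at this
    refine this.congr fun n => ?_
    rw [← add_mul, sum_congr rfl fun j _ => (by
      have := ha j
      field_simp
      rw [add_right_comm j 1 l, add_assoc] :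
        (a (j + (l + 1)) / a j - a (j + l) / a j) * a j = a (j + 1 + l) - a (j + l)),
      sum_range_sub fun j => a (j + l)]
    simp
  · have := key (fun j => (a (j + i) / a j - 1) ^ 2 / (a (j + i) / a j))
      (by simpa [Pi.div_def] using
        (((ratio_lim ha hr i).sub_const 1).pow 2).div (ratio_lim ha hr i) one_ne_zero)
    refine this.congr fun n => ?_
    congr 1
    refine sum_congr rfl fun j _ => ?_
    have := ha j
    have := ha (j + i)
    field_simp

theorem rem_zero (ha : ∀ k, 0 < a k) (k : ℕ) (hk : 1 ≤ k) : Rem a 0 k (1 / ps a k) := fun p hp => by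
  have := ps_pos ha hk
  rw [← nrm_const hp]
  exact le_of_eq (by field_simp)

theorem rem_doubling (ha : ∀ k, 0 < a k) {C : ℝ} (hC : ∀ n, ps a (2 * n) ≤ C * ps a n) (μ k : ℕ)
    (hk : 1 ≤ k) : Rem a μ k ((max 1 C ^ 2) ^ μ / ((1 / 2) ^ μ) ^ 2 / ps a k) := by
  refine rem_of ha (by norm_num) (by norm_num) (one_le_pow₀ (le_max_left _ _)) hk
    (fun u v hu _ h => ?_) μ
  have h1 : v ≤ 2 * (2 * u) := by
    have : (v : ℝ) < (3 * u + 1 : ℕ) := by push_cast; linarith
    have := Nat.cast_lt.mp this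
    omega
  have h2 : ∀ n, 1 ≤ n → ps a (2 * n) ≤ max 1 C * ps a n := fun n hn =>
    (hC n).trans (mul_le_mul_of_nonneg_right (le_max_right _ _) (ps_pos ha hn).le)
  rw [sq, mul_assoc]
  exact (ps_mono ha h1).trans ((h2 _ (by omega)).trans
    (mul_le_mul_of_nonneg_left (h2 u hu) (by positivity)))

section B

variable {ε C : ℝ} (ha : ∀ k, 0 < a k) (h1 : 1 ≤ κ) (hκ : ∀ k, a (k + 1) ≤ κ * a k)
  (he : 0 < ε) (he1 : ε ≤ 1) (hC : 0 ≤ C)
  (hreg : ∀ k : ℕ, |a (k + 1) - a k| ≤ C * ((k : ℝ) + 1) ^ (ε - 1) * a k)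
include ha he he1 hC hreg

theorem sigma_bound (k : ℕ) : ((k : ℝ) + 1) ^ (1 - ε) * a k ≤ (C + 1) * ps a (k + 1) := by
  induction k with
  | zero => simp [ps]; nlinarith [ha 0]
  | succ k ih =>
    have x0 : (0 : ℝ) < k + 1 := by positivity
    have e1 : ((k : ℝ) + 1) ^ (1 - ε) * ((k : ℝ) + 1) ^ (ε - 1) = 1 := by
      rw [← Real.rpow_add x0]; simp
    have e2 := Real.rpow_add_le_add_rpow (p := 1 - ε) x0.le zero_le_one (by linarith) (by linarith)
    have e3 : ((k : ℝ) + 1) ^ (1 - ε) * (a (k + 1) - a k) ≤ C * a (k + 1) := by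
      rcases le_total (a (k + 1)) (a k) with h | h
      · exact (mul_nonpos_of_nonneg_of_nonpos (by positivity) (by linarith)).trans
          (mul_nonneg hC (ha _).le)
      · calc _ ≤ ((k : ℝ) + 1) ^ (1 - ε) * (C * ((k : ℝ) + 1) ^ (ε - 1) * a (k + 1)) := by
              gcongr
              exact ((le_abs_self _).trans (hreg k)).trans (by gcongr)
          _ = _ := by linear_combination (C * a (k + 1)) * e1
    have e4 := mul_le_mul_of_nonneg_right e2 (ha (k + 1)).le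
    rw [ps, sum_range_succ, ← ps]
    rw [Real.one_rpow] at e4
    push_cast
    linarith

theorem sigma_bound' (k : ℕ) : a k ≤ (C + 1) * ((k : ℝ) + 1) ^ (ε - 1) * ps a (k + 1) := by
  have := sigma_bound ha he he1 hC hreg k
  rwa [← neg_sub ε, Real.rpow_neg (by positivity), inv_mul_le_iff₀ (by positivity), ← mul_assoc,
    mul_comm _ (C + 1)] at this

include h1 hκ

theorem ps_growth {u : ℕ} (hu : 1 ≤ u) (i : ℕ) :
    ps a (u + i) ≤ Real.exp (i * (κ * (C + 1) * (u : ℝ) ^ (ε - 1))) * ps a u := by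
  induction i with
  | zero => simp
  | succ i ih =>
    obtain ⟨u, rfl⟩ := Nat.exists_eq_add_of_le' hu
    have p0 := ps_pos ha (show 1 ≤ u + i + 1 by omega)
    have h2 := sigma_bound' ha he he1 hC hreg (u + i)
    have h3 : (((u + i : ℕ) : ℝ) + 1) ^ (ε - 1) ≤ ((u + 1 : ℕ) : ℝ) ^ (ε - 1) :=
      Real.rpow_le_rpow_of_nonpos (by positivity) (by push_cast; linarith [Nat.cast_nonneg (α := ℝ) i])
        (by linarith)
    have h4 : a (u + i + 1) ≤ κ * (C + 1) * ((u + 1 : ℕ) : ℝ) ^ (ε - 1) * ps a (u + i + 1) := by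
      refine (hκ _).trans ?_
      rw [mul_assoc, mul_assoc, ← mul_assoc (C + 1)]
      gcongr
      exact h2.trans (by gcongr)
    have h5 := mul_le_mul_of_nonneg_right
      (Real.add_one_le_exp (κ * (C + 1) * ((u + 1 : ℕ) : ℝ) ^ (ε - 1))) p0.le
    rw [add_right_comm u 1 i] at ih
    have h6 := mul_le_mul_of_nonneg_left ih
      (Real.exp_pos (κ * (C + 1) * ((u + 1 : ℕ) : ℝ) ^ (ε - 1))).le
    rw [← add_assoc, add_right_comm u 1 i, ps, sum_range_succ, ← ps, Nat.cast_succ i, add_mul,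
      Real.exp_add, one_mul]
    linarith

theorem rem_reg (μ k : ℕ) (hk : 1 ≤ k) : Rem a μ k
    (Real.exp (3 * (κ * (C + 1))) ^ μ / ((((k : ℝ) ^ ε)⁻¹ / 2) ^ μ) ^ 2 / ps a k) := by
  have k1 : (1 : ℝ) ≤ (k : ℝ) ^ ε := Real.one_le_rpow (by exact_mod_cast hk) he.le
  have k2 := inv_le_one_of_one_le₀ k1
  have k3 : 0 < ((k : ℝ) ^ ε)⁻¹ := by positivity
  have d1 : 1 ≤ Real.exp (3 * (κ * (C + 1))) := Real.one_le_exp (by positivity)
  refine rem_of ha (by positivity) (by linarith) d1 hk (fun u v hu hv h => ?_) μ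
  rcases le_total v u with huv | huv
  · exact (ps_mono ha huv).trans (le_mul_of_one_le_left (ps_pos ha hu).le d1)
  obtain ⟨i, rfl⟩ := Nat.exists_eq_add_of_le huv
  refine (ps_growth ha h1 hκ he he1 hC hreg hu i).trans
    (mul_le_mul_of_nonneg_right (Real.exp_le_exp.mpr ?_) (ps_pos ha hu).le)
  have u1 : (1 : ℝ) ≤ u := by exact_mod_cast hu
  have b1 : (i : ℝ) ≤ 1 + 2 * ((k : ℝ) ^ ε)⁻¹ * u := by
    push_cast at h
    by_contra hc
    nlinarith [mul_pos k3 (zero_lt_one.trans_le u1)]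
  have b2 : (u : ℝ) ^ (ε - 1) ≤ 1 := Real.rpow_le_one_of_one_le_of_nonpos u1 (by linarith)
  have b3 : ((k : ℝ) ^ ε)⁻¹ * u * (u : ℝ) ^ (ε - 1) ≤ 1 := by
    rw [mul_assoc, inv_mul_le_iff₀ (by positivity), mul_one, Real.rpow_sub_one (by positivity),
      mul_div_cancel₀ _ (by positivity)]
    exact Real.rpow_le_rpow (by positivity) (by exact_mod_cast (by omega : u ≤ k)) he.le
  have b4 := mul_le_mul_of_nonneg_right b1 (by positivity : 0 ≤ (u : ℝ) ^ (ε - 1))
  rw [mul_comm (κ * (C + 1)), ← mul_assoc]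
  exact mul_le_mul_of_nonneg_right (by linarith) (by positivity)

theorem diff_shift (i j : ℕ) :
    |a (j + i) - a j| ≤ i * κ ^ i * C * ((j : ℝ) + 1) ^ (ε - 1) * a j := by
  induction i with
  | zero => simp
  | succ i ih =>
    have h3 : (((j + i : ℕ) : ℝ) + 1) ^ (ε - 1) ≤ ((j : ℝ) + 1) ^ (ε - 1) :=
      Real.rpow_le_rpow_of_nonpos (by positivity) (by push_cast; linarith [Nat.cast_nonneg (α := ℝ) i])
        (by linarith)
    have h0 := ha j
    have h4 : |a (j + i + 1) - a (j + i)| ≤ C * ((j : ℝ) + 1) ^ (ε - 1) * (κ ^ (i + 1) * a j) := by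
      refine (hreg _).trans ?_
      have := ha (j + i)
      gcongr
      exact (up_shift h1 hκ j i).trans (by gcongr; omega)
    have h5 : |a (j + i) - a j| ≤ i * κ ^ (i + 1) * C * ((j : ℝ) + 1) ^ (ε - 1) * a j :=
      ih.trans (by gcongr; omega)
    have h6 := abs_sub_le (a (j + i + 1)) (a (j + i)) (a j)
    rw [← add_assoc]
    push_cast
    linarith

end B

theorem small_B (ha : ∀ k, 0 < a k) (h1 : 1 ≤ κ) (hκ : ∀ k, a (k + 1) ≤ κ * a k)
    (hκ' : ∀ k, a k ≤ κ * a (k + 1)) (hs : Tendsto (ps a) atTop atTop)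
    (hreg : ∀ ε : ℝ, 0 < ε → ∃ C, ∀ k : ℕ, |a (k + 1) - a k| ≤ C * ((k : ℝ) + 1) ^ (ε - 1) * a k) (μ : ℕ)
    (E : ℕ → ℝ) (D : ℕ) (C : ℝ) (hC : 0 ≤ C) (hE : ∀ n, 0 ≤ E n)
    (H : ∀ n k Γ, 0 ≤ Γ → k + D ≤ n → Rem a μ k Γ → E n ≤ C * Γ) : Small a E := by
  have e1 : Tendsto E atTop (𝓝 0) := by
    refine Metric.tendsto_nhds.mpr fun δ hδ => ?_
    obtain ⟨k, hk⟩ := rem_small ha hs μ ((C + 1) / δ) (by positivity)
    filter_upwards [eventually_ge_atTop (k + D)] with n hn
    rw [dist_zero_right, Real.norm_of_nonneg (hE n)]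
    refine (H n k (δ / (C + 1)) (by positivity) hn fun p hp => ?_).trans_lt ?_
    · rw [← inv_div, le_inv_mul_iff₀ (by positivity)]
      exact hk p hp
    · rw [← mul_div_assoc, div_lt_iff₀ (by positivity)]
      linarith
  set ε : ℝ := 1 / (4 * (μ + 1)) with hε
  have he : 0 < ε := by positivity
  have he2 : ε * (4 * (μ + 1)) = 1 := one_div_mul_cancel (by positivity)
  have he3 : 0 ≤ ε * μ := by positivity
  have he1 : ε ≤ 1 := by linarith
  obtain ⟨R, hR⟩ := hreg ε he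
  have R0 : 0 ≤ R := by
    have := (abs_nonneg _).trans (hR 0)
    simp only [Nat.cast_zero, zero_add, Real.one_rpow, mul_one] at this
    exact nonneg_of_mul_nonneg_left this (ha 0)
  obtain ⟨G, G0, hG⟩ : ∃ G, 0 ≤ G ∧ ∀ n, D + 1 ≤ n → ∀ j ≤ n,
      ps a (j + 1) * E n ≤ G * ((j : ℝ) + 1) ^ (2 * (ε * μ)) := by
    refine ⟨(1 + κ) ^ (D + 1) * (C * (Real.exp (3 * (κ * (R + 1))) ^ μ * (2 ^ μ) ^ 2)),
      by positivity, fun n hn j hj => ?_⟩
    have k1 : 1 ≤ max 1 (j - D) := le_max_left _ _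
    have p0 := ps_pos ha k1
    have k2 : (0 : ℝ) < (max 1 (j - D) : ℕ) := by exact_mod_cast k1
    have b1 := H n _ _ (by positivity) (by omega) (rem_reg ha h1 hκ he he1 R0 hR μ _ k1)
    have b2 := (ps_mono ha (show j + 1 ≤ max 1 (j - D) + (D + 1) by omega)).trans
      (ps_shift ha h1 hκ k1 (D + 1))
    have b3 : ((((max 1 (j - D) : ℕ) : ℝ) ^ ε) ^ μ) ^ 2 ≤ ((j : ℝ) + 1) ^ (2 * (ε * μ)) := by
      rw [mul_comm 2, Real.rpow_mul (by positivity), Real.rpow_mul (by positivity),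
        Real.rpow_natCast, Real.rpow_two]
      gcongr
      exact_mod_cast (by omega : max 1 (j - D) ≤ j + 1)
    refine (mul_le_mul b2 b1 (hE n) (by positivity)).trans
      (le_trans (le_of_eq ?_) (mul_le_mul_of_nonneg_left b3 (by positivity)))
    rw [div_pow, inv_pow]
    field_simp
  refine ⟨e1, fun l => ?_, fun i => ?_⟩
  · have t := (((tendsto_rpow_neg_atTop (y := 1 - ε - 2 * (ε * μ)) (by linarith)).comp
      (tendsto_atTop_add_const_right _ 1 tendsto_natCast_atTop_atTop)).const_mul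
        (κ ^ (1 + l) * (R + 1) * G))
    rw [mul_zero] at t
    refine squeeze_zero' (Eventually.of_forall fun n => mul_nonneg (ha _).le (hE n)) ?_ t
    filter_upwards [eventually_ge_atTop (D + 1)] with n hn
    have b1 := (up_shift h1 hκ n (1 + l)).trans (mul_le_mul_of_nonneg_left
      (sigma_bound' ha he he1 R0 hR n) (by positivity))
    rw [add_assoc]
    calc _ ≤ κ ^ (1 + l) * (R + 1) * ((n : ℝ) + 1) ^ (ε - 1) * (ps a (n + 1) * E n) := by
          linarith [mul_le_mul_of_nonneg_right b1 (hE n)]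
      _ ≤ κ ^ (1 + l) * (R + 1) * ((n : ℝ) + 1) ^ (ε - 1) * (G * ((n : ℝ) + 1) ^ (2 * (ε * μ))) := by
          exact mul_le_mul_of_nonneg_left (hG n hn n le_rfl) (by positivity)
      _ = _ := by
          rw [Function.comp, show -(1 - ε - 2 * (ε * μ)) = ε - 1 + 2 * (ε * μ) by ring,
            Real.rpow_add (by positivity)]
          ring
  · have hsum : Summable fun j : ℕ => (i * κ ^ i * R) ^ 2 * κ ^ i * G * ((j : ℝ) + 1) ^ (-3 / 2 : ℝ) := by
      have := (summable_nat_add_iff 1).mpr (Real.summable_nat_rpow.mpr (by norm_num : (-3 / 2 : ℝ) < -1))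
      simpa using this.mul_left _
    have t := tendsto_tsum_of_dominated_convergence (𝓕 := atTop)
      (f := fun n j => if j < n + 1 then (a (j + i) - a j) ^ 2 / a (j + i) * E n else 0)
      (g := fun _ => 0) hsum (fun j => ?_) ?_
    · rw [tsum_zero] at t
      refine t.congr fun n => ?_
      rw [tsum_eq_sum (s := range (n + 1)) fun j hj => if_neg (by simpa using hj), sum_mul]
      exact sum_congr rfl fun j hj => if_pos (mem_range.mp hj)
    · refine Tendsto.congr' ?_ (by simpa using e1.const_mul ((a (j + i) - a j) ^ 2 / a (j + i)))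
      filter_upwards [eventually_ge_atTop j] with n hn
      rw [if_pos (by omega)]
    filter_upwards [eventually_ge_atTop (D + 1)] with n hn j
    split_ifs with hj
    swap
    · rw [norm_zero]
      positivity
    have a1 := ha j
    have a2 := ha (j + i)
    have a3 := hE n
    have b1 := pow_le_pow_left₀ (abs_nonneg _) (diff_shift ha h1 hκ he he1 R0 hR i j) 2
    have b2 : a j / a (j + i) ≤ κ ^ i := (div_le_iff₀ a2).mpr (le_pow_shift h1 hκ' j i)
    have b3 : a j * E n ≤ G * ((j : ℝ) + 1) ^ (2 * (ε * μ)) :=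
      le_trans (mul_le_mul_of_nonneg_right
        (single_le_sum (fun k _ => (ha k).le) (mem_range.mpr (by omega))) a3) (hG n hn j (by omega))
    rw [sq_abs] at b1
    rw [Real.norm_of_nonneg (by positivity)]
    calc _ ≤ (i * κ ^ i * R * ((j : ℝ) + 1) ^ (ε - 1) * a j) ^ 2 / a (j + i) * E n := by gcongr
      _ = (i * κ ^ i * R * ((j : ℝ) + 1) ^ (ε - 1)) ^ 2 * (a j / a (j + i)) * (a j * E n) := by ring
      _ ≤ (i * κ ^ i * R * ((j : ℝ) + 1) ^ (ε - 1)) ^ 2 * κ ^ i *
            (G * ((j : ℝ) + 1) ^ (2 * (ε * μ))) := by gcongr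
      _ = _ := by
          rw [show (-3 / 2 : ℝ) = ε - 1 + (ε - 1) + 2 * (ε * μ) by linarith,
            Real.rpow_add (by positivity), Real.rpow_add (by positivity)]
          ring

end Pool.Agent.Lib.MP_83ec3d_an
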