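import Pool.Agent.Lib.MP_83ec3d_an.Nec
import Pool.Agent.Lib.MP_83ec3d_an.Suff

open Polynomial Finset Filter Topology

namespace Pool.Agent.Lib.MP_83ec3d_an

variable {ω : ℕ → ℝ}

theorem sum_iff (hω : Admissible ω) :
    ¬ Summable (fun k => 1 / ω k) ↔ Tendsto (ps fun k => (ω k)⁻¹) atTop atTop := by
  simp only [one_div]
  exact not_summable_iff_tendsto_nat_atTop_of_nonneg fun k => (inv_pos.mpr (hω.1 k)).le

theorem mult_le (f : ℂ[X]) (z : ℂ) : f.rootMultiplicity z ≤ f.natDegree + 1 := by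
  classical
  rw [← count_roots]
  exact (Multiset.count_le_card _ _).trans ((card_roots' f).trans (Nat.le_succ _))

theorem ratio_one (hω : Admissible ω) :
    Tendsto (fun k => (ω (k + 1))⁻¹ / (ω k)⁻¹) atTop (𝓝 1) := by
  simpa only [inv_div_inv] using hω.2.2

theorem root_pow (m : ℕ) (z : ℂ) (hz : ((X - C 1 : ℂ[X]) ^ m).IsRoot z) : 1 ≤ ‖z‖ := by
  have h : (z - 1) ^ m = 0 := by simpa using hz
  rw [sub_eq_zero.mp (pow_eq_zero_iff'.mp h).1, norm_one]

theorem has_sum (hω : Admissible ω) (h : HasProperty ω) : ¬ Summable (fun k => 1 / ω k) :=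
  (sum_iff hω).mpr (nec_sum hω (h _ (by simpa using root_pow 1)))

theorem has_growth (hω : Admissible ω) (h : HasProperty ω) {ε : ℝ} (hε : 0 < ε) :
    ∃ c > 0, ∀ k : ℕ, c * Real.exp (-(k : ℝ) ^ ε) ≤ ω k :=
  nec_growth hω (fun m => h _ (root_pow m)) hε

theorem simple_iff (hω : Admissible ω) :
    (∀ f : ℂ[X], (∀ z, f.IsRoot z → 1 ≤ ‖z‖) → (∀ z, f.rootMultiplicity z ≤ 1) → Converges ω f) ↔
      ¬ Summable (fun k => 1 / ω k) := by
  have ha : ∀ k, 0 < (ω k)⁻¹ := fun k => inv_pos.mpr (hω.1 k)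
  rw [sum_iff hω]
  refine ⟨fun h => nec_sum hω (h _ (by simpa using root_pow 1) fun z => ?_), fun h f h1 h2 => ?_⟩
  · classical
    rw [rootMultiplicity_X_sub_C]
    split_ifs <;> simp
  · obtain ⟨κ, k1, -, k3⟩ := ratio_bounds hω
    exact converges_of hω h1 (μ := 0) h2
      (small_A ha k1 k3 (ratio_one hω) h zero_le_one (rem_zero ha))

theorem doubling_has (hω : Admissible ω) {C : ℝ}
    (hC : ∀ n, ps (fun k => (ω k)⁻¹) (2 * n) ≤ C * ps (fun k => (ω k)⁻¹) n)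
    (h : ¬ Summable (fun k => 1 / ω k)) : HasProperty ω := fun f hf => by
  have ha : ∀ k, 0 < (ω k)⁻¹ := fun k => inv_pos.mpr (hω.1 k)
  obtain ⟨κ, k1, -, k3⟩ := ratio_bounds hω
  exact converges_of hω hf (mult_le f)
    (small_A ha k1 k3 (ratio_one hω) ((sum_iff hω).mp h) (by positivity) (rem_doubling ha hC _))

theorem doubling_of_anti {a : ℕ → ℝ} (ha : ∀ k, 0 < a k) {k0 : ℕ}
    (h : ∀ k ≥ k0, a (k + 1) ≤ a k) : ∃ C, ∀ n, ps a (2 * n) ≤ C * ps a n := by
  have h1 : ∀ i ≥ k0, ∀ j, a (i + j) ≤ a i := fun i hi j => by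
    induction j with
    | zero => simp
    | succ j ih => exact (h (i + j) (by omega)).trans ih
  obtain ⟨B, hB⟩ := ((Set.finite_le_nat k0).image2 (fun j i => a j / a i)
    (Set.finite_le_nat k0)).bddAbove
  have B1 : 1 ≤ B := by
    simpa [(ha 0).ne'] using hB ⟨0, Nat.zero_le k0, 0, Nat.zero_le k0, rfl⟩
  have h2 : ∀ i n, a (n + i) ≤ B * a i := fun i n => by
    rcases le_total k0 i with hi | hi
    · rw [add_comm]
      exact (h1 i hi n).trans (le_mul_of_one_le_left (ha i).le B1)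
    · rw [← div_le_iff₀ (ha i)]
      rcases le_total k0 (n + i) with hj | hj
      · obtain ⟨j, hj⟩ := Nat.exists_eq_add_of_le hj
        rw [hj]
        exact (div_le_div_of_nonneg_right (h1 k0 le_rfl j) (ha i).le).trans
          (hB ⟨k0, Nat.le_refl k0, i, hi, rfl⟩)
      · exact hB ⟨_, hj, i, hi, rfl⟩
  refine ⟨1 + B, fun n => ?_⟩
  rw [ps, two_mul, sum_range_add, add_mul, one_mul, ps, mul_sum]
  exact add_le_add le_rfl (sum_le_sum fun i _ => h2 i n)

theorem reg_of_convex {a : ℕ → ℝ} (ha : ∀ k, 0 < a k) {κ : ℝ} (h1 : 1 ≤ κ)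
    (hκ : ∀ k, a (k + 1) ≤ κ * a k) {k0 : ℕ} (h2 : ∀ k ≥ k0, a k ≤ a (k + 1))
    (h3 : ∀ i ≥ k0, ∀ k ≥ i, a (k + 1) / a k ≤ a (i + 1) / a i) {ε c : ℝ} (hε : 0 < ε)
    (hc : ∀ k : ℕ, a k ≤ c * Real.exp ((k : ℝ) ^ ε)) :
    ∃ C, ∀ k : ℕ, |a (k + 1) - a k| ≤ C * ((k : ℝ) + 1) ^ (ε - 1) * a k := by
  set L := |Real.log (c / a k0)| + 1 with hL
  have L0 : 0 < L := by positivity
  have c0 : 0 < c := (mul_pos_iff_of_pos_right (Real.exp_pos _)).mp ((ha 0).trans_le (hc 0))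
  refine ⟨2 * κ * L + (κ + 1) * (2 * k0 + 1), fun k => ?_⟩
  have hk := ha k
  have x1 : (1 : ℝ) ≤ (k + 1 : ℝ) ^ ε := Real.one_le_rpow (by linarith [Nat.cast_nonneg (α := ℝ) k]) hε.le
  rw [Real.rpow_sub_one (by positivity), ← div_le_iff₀ hk, ← mul_div_assoc,
    le_div_iff₀ (by positivity)]
  rcases le_or_gt k (2 * k0) with h | h
  · have e1 : |a (k + 1) - a k| / a k ≤ κ + 1 := by
      rw [div_le_iff₀ hk, abs_le]
      constructor <;> nlinarith [hκ k, ha (k + 1)]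
    have e2 : (k : ℝ) + 1 ≤ 2 * k0 + 1 := by exact_mod_cast Nat.succ_le_succ h
    calc _ ≤ (κ + 1) * (2 * k0 + 1) := by gcongr
      _ ≤ 2 * κ * L + (κ + 1) * (2 * k0 + 1) := le_add_of_nonneg_left (by positivity)
      _ ≤ _ := le_mul_of_one_le_right (by positivity) x1
  · set r := a (k + 1) / a k with hr
    have r1 : 1 ≤ r := (one_le_div hk).mpr (h2 k (by omega))
    have r2 : r ≤ κ := (div_le_iff₀ hk).mpr (hκ k)
    have e1 : ∀ j, k0 + j ≤ k → r ^ j * a k0 ≤ a (k0 + j) := fun j hj => by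
      induction j with
      | zero => simp
      | succ j ih =>
        have := (le_div_iff₀ (ha _)).mp (h3 (k0 + j) (by omega) k (by omega))
        rw [pow_succ', mul_assoc]
        exact (mul_le_mul_of_nonneg_left (ih (by omega)) (by positivity)).trans this
    obtain ⟨j, rfl⟩ := Nat.exists_eq_add_of_le (show k0 ≤ k by omega)
    have e2 := (e1 j le_rfl).trans (hc _)
    rw [← le_div_iff₀ (ha k0), mul_div_right_comm] at e2
    have e3 := Real.log_le_log (by positivity) e2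
    rw [Real.log_pow, Real.log_mul (div_pos c0 (ha k0)).ne' (Real.exp_pos _).ne', Real.log_exp] at e3
    have e4 : ((k0 + j : ℕ) : ℝ) ^ ε ≤ ((k0 + j : ℕ) + 1 : ℝ) ^ ε :=
      Real.rpow_le_rpow (by positivity) (by linarith) hε.le
    have e5 : r - 1 ≤ κ * Real.log r := by
      have := Real.one_sub_inv_le_log_of_pos (show 0 < r by positivity)
      rw [← div_le_iff₀' (by positivity)]
      refine le_trans ?_ this
      rw [show 1 - r⁻¹ = (r - 1) / r by field_simp]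
      gcongr
    have e6 : ((k0 + j : ℕ) : ℝ) + 1 ≤ 2 * j := by exact_mod_cast (by omega : k0 + j + 1 ≤ 2 * j)
    have e7 : |a (k0 + j + 1) - a (k0 + j)| / a (k0 + j) = r - 1 := by
      rw [abs_of_nonneg (sub_nonneg.mpr (h2 _ (by omega))), hr]
      field_simp
    have e8 : Real.log (c / a k0) ≤ |Real.log (c / a k0)| * ((k0 + j : ℕ) + 1 : ℝ) ^ ε :=
      (le_abs_self _).trans (le_mul_of_one_le_right (abs_nonneg _) x1)
    have e9 := Real.log_nonneg r1
    rw [e7]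
    calc _ ≤ κ * Real.log r * (2 * j) := by gcongr
      _ = 2 * κ * (j * Real.log r) := by ring
      _ ≤ 2 * κ * (L * ((k0 + j : ℕ) + 1 : ℝ) ^ ε) :=
        mul_le_mul_of_nonneg_left (by rw [hL]; linarith) (by positivity)
      _ ≤ _ := by
        rw [← mul_assoc]
        gcongr
        exact le_add_of_nonneg_right (by positivity)

theorem monotone_iff (hω : Admissible ω) {k0 : ℕ}
    (h : MonotoneOn (fun k => ω (k + 1) / ω k) (Set.Ici k0) ∨
      AntitoneOn (fun k => ω (k + 1) / ω k) (Set.Ici k0)) :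
    HasProperty ω ↔ ¬ Summable (fun k => 1 / ω k) ∧
      ∀ ε : ℝ, 0 < ε → ∃ c > 0, ∀ k : ℕ, c * Real.exp (-(k : ℝ) ^ ε) ≤ ω k := by
  refine ⟨fun h => ⟨has_sum hω h, fun _ => has_growth hω h⟩, fun ⟨h1, h2⟩ => ?_⟩
  have ha : ∀ k, 0 < (ω k)⁻¹ := fun k => inv_pos.mpr (hω.1 k)
  have hr : Tendsto (fun k => ω (k + 1) / ω k) atTop (𝓝 1) := by
    simpa using hω.2.2.inv₀ one_ne_zero
  rcases h with h | h
  · obtain ⟨κ, k1, k2, k3⟩ := ratio_bounds hω
    refine fun f hf => converges_of hω hf (mult_le f)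
      (small_B ha k1 k3 k2 ((sum_iff hω).mp h1) (fun ε hε => ?_) _)
    obtain ⟨c, c0, hc⟩ := h2 ε hε
    refine reg_of_convex ha k1 k3 (k0 := k0) (fun k hk => ?_) (fun i hi k hk => ?_) hε (c := c⁻¹)
      fun k => ?_
    · refine inv_anti₀ (hω.1 _) ((div_le_one (hω.1 k)).mp (ge_of_tendsto hr ?_))
      filter_upwards [eventually_ge_atTop k] with j hj using h hk (hk.trans hj) hj
    · rw [inv_div_inv, inv_div_inv, ← inv_div, ← inv_div (ω (i + 1))]
      exact inv_anti₀ (div_pos (hω.1 _) (hω.1 _)) (h hi (hi.trans hk) hk)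
    · rw [← inv_inv (Real.exp _), ← mul_inv, ← Real.exp_neg]
      exact inv_anti₀ (by positivity) (hc k)
  · obtain ⟨C, hC⟩ := doubling_of_anti ha (k0 := k0) fun k hk => by
      refine inv_anti₀ (hω.1 _) ((one_le_div (hω.1 k)).mp (le_of_tendsto hr ?_))
      filter_upwards [eventually_ge_atTop k] with j hj using h hk (hk.trans hj) hj
    exact doubling_has hω hC h1

end Pool.Agent.Lib.MP_83ec3d_an
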