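import Pool.Agent.Lib.MP_83ec3d_an.Suff

open Polynomial Finset Filter Topology
open scoped ComplexConjugate InnerProductSpace

namespace Pool.Agent.Lib.MP_83ec3d_an

variable {a : ℕ → ℝ} {κ : ℝ}

theorem cs (ha : ∀ k, 0 < a k) (M : ℕ) (U : ℕ → ℂ) :
    (∑ k ∈ range M, a k * ‖U k‖) ^ 2 ≤ ps a M * nrm a M U :=
  sum_sq_le_sum_mul_sum_of_sq_le_mul _ (fun k _ => (ha k).le)
    (fun k _ => by have := ha k; positivity) fun k _ => le_of_eq (by ring)

theorem exists_node {p : ℂ[X]} {j : ℕ} (hp : p.natDegree ≤ j) (b : ℕ) :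
    ∃ i ≤ j, ∀ (x : ℂ) (T : ℝ), 0 ≤ T → ‖x - (b + i : ℕ)‖ ≤ T →
      ‖p.eval x‖ ≤ (2 * T + 1) ^ j * ‖p.eval ((b + i : ℕ) : ℂ)‖ := by
  obtain ⟨i, hi, h⟩ : ∃ i ≤ j, ∀ z ∈ p.roots, 1 / 2 ≤ ‖((b + i : ℕ) : ℂ) - z‖ := by
    by_contra hc
    push Not at hc
    choose! z hz1 hz2 using hc
    have := card_le_card_of_injOn z (s := range (j + 1)) (t := p.roots.toFinset)
      (fun i hi => by simpa using hz1 i (by simpa [Nat.lt_succ_iff] using hi)) fun i hi k hk e => by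
        have h1 := hz2 i (by simpa [Nat.lt_succ_iff] using hi)
        have h2 := hz2 k (by simpa [Nat.lt_succ_iff] using hk)
        have h3 := norm_sub_le (((b + i : ℕ) : ℂ) - z i) (((b + k : ℕ) : ℂ) - z k)
        have h4 : ((b + i : ℕ) : ℂ) - z i - (((b + k : ℕ) : ℂ) - z k) = ((i - k : ℤ) : ℂ) := by
          rw [e]; push_cast; ring
        rw [h4, Complex.norm_intCast] at h3
        have h5 : |((i : ℤ) - k)| < 1 := by exact_mod_cast (by linarith : |((i - k : ℤ) : ℝ)| < 1)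
        have := abs_lt.mp h5
        omega
    have h2 := (Multiset.toFinset_card_le p.roots).trans (card_roots' p)
    rw [card_range] at this
    omega
  refine ⟨i, hi, fun x T hT hx => ?_⟩
  have := eval_cmp (η := (2 * T + 1)⁻¹) (by positivity) (b + i : ℕ) x p fun z hz => by
    rw [inv_mul_le_iff₀ (by positivity)]
    have h1 := norm_sub_le_norm_sub_add_norm_sub x (b + i : ℕ) z
    have h2 := mul_le_mul_of_nonneg_left (h z hz) hT
    linarith
  rw [inv_pow, inv_mul_le_iff₀ (by positivity)] at this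
  exact this.trans (by gcongr; linarith)

theorem sup_bound (ha : ∀ k, 0 < a k) (h1 : 1 ≤ κ) (hκ : ∀ k, a (k + 1) ≤ κ * a k) {p : ℂ[X]}
    {j N : ℕ} (hp : p.natDegree ≤ j) (hN : j + 1 ≤ N) {w : ℕ → ℝ} (w0 : ∀ k ≤ N, 0 ≤ w k)
    (w1 : ∀ k < N, 1 ≤ w k) {k : ℕ} (hk : k ≤ N) :
    a N * ‖p.eval (k : ℂ)‖ ^ 2 ≤ ((2 * N + 1) ^ j) ^ 2 * κ ^ (j + 1) *
      ∑ k ∈ range (N + 1), a k * (w k * ‖p.eval (k : ℂ)‖ ^ 2) := by
  obtain ⟨i, hi, h⟩ := exists_node hp (N - (j + 1))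
  set y := N - (j + 1) + i with hy
  have b1 := h k N (by positivity) (by
    have : (k : ℂ) - y = ((k - y : ℤ) : ℂ) := by simp
    rw [this, Complex.norm_intCast]
    exact_mod_cast (abs_le.mpr ⟨by omega, by omega⟩ : |(k : ℤ) - y| ≤ N))
  have b2 : a N ≤ κ ^ (j + 1) * a y := by
    have := up_shift h1 hκ y (N - y)
    rw [Nat.add_sub_cancel' (by omega)] at this
    have := ha y
    exact ‹a N ≤ _›.trans (by gcongr; omega)
  have b3 := single_le_sum (f := fun k => a k * (w k * ‖p.eval (k : ℂ)‖ ^ 2))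
    (fun k hk => mul_nonneg (ha k).le (mul_nonneg (w0 k (Nat.le_of_lt_succ (mem_range.mp hk)))
      (sq_nonneg _))) (mem_range.mpr (show y < N + 1 by omega))
  have b4 := w1 y (by omega)
  have := ha y
  calc _ ≤ κ ^ (j + 1) * a y * ((2 * N + 1) ^ j * ‖p.eval (y : ℂ)‖) ^ 2 := by gcongr
    _ = ((2 * N + 1) ^ j) ^ 2 * κ ^ (j + 1) * (a y * (1 * ‖p.eval (y : ℂ)‖ ^ 2)) := by ring
    _ ≤ ((2 * N + 1) ^ j) ^ 2 * κ ^ (j + 1) * (a y * (w y * ‖p.eval (y : ℂ)‖ ^ 2)) := by gcongr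
    _ ≤ _ := by gcongr

noncomputable def ev (a : ℕ → ℝ) (M : ℕ) : ℂ[X] →ₗ[ℂ] EuclideanSpace ℂ (Fin M) where
  toFun p := WithLp.toLp 2 fun k => (√(a k) : ℝ) * p.eval ((k : ℕ) : ℂ)
  map_add' p q := by ext k; simp [mul_add]
  map_smul' c p := by ext k; simp [mul_left_comm]

theorem exists_kernel (ha : ∀ k, 0 < a k) (j N : ℕ) : ∃ Y : ℂ[X], Y.natDegree ≤ j ∧
    ∀ P : ℂ[X], P.natDegree ≤ j →
      ∑ k ∈ range (N + 1), a k * (conj (Y.eval (k : ℂ)) * P.eval (k : ℂ)) = P.eval (N : ℂ) := by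
  obtain ⟨Y, hY, h⟩ := ((degreeLE ℂ j).map (ev a (N + 1))).starProjection_apply_mem
    (EuclideanSpace.single (Fin.last N) ((√(a N))⁻¹ : ℝ))
  refine ⟨Y, natDegree_le_of_degree_le (mem_degreeLE.mp hY), fun P hP => ?_⟩
  have := ((degreeLE ℂ j).map (ev a (N + 1))).starProjection_inner_eq_zero
    (EuclideanSpace.single (Fin.last N) ((√(a N))⁻¹ : ℝ)) _
    ⟨P, mem_degreeLE.mpr (degree_le_of_natDegree_le hP), rfl⟩
  rw [← h, inner_sub_left, sub_eq_zero, EuclideanSpace.inner_single_left, PiLp.inner_apply] at this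
  have h2 : (√(a N) : ℂ) ≠ 0 := by exact_mod_cast (Real.sqrt_pos.mpr (ha N)).ne'
  rw [sum_range]
  refine Eq.trans (sum_congr rfl fun k _ => ?_) (this.symm.trans (by simp [ev, h2]))
  have : (a k : ℂ) = (√(a k) : ℝ) * (√(a k) : ℝ) := by
    exact_mod_cast (Real.mul_self_sqrt (ha k).le).symm
  simp only [ev, LinearMap.coe_mk, AddHom.coe_mk, RCLike.inner_apply, map_mul,
    Complex.conj_ofReal]
  rw [this]
  ring

theorem kernel_lower (ha : ∀ k, 0 < a k) (h1 : 1 ≤ κ) (hκ : ∀ k, a (k + 1) ≤ κ * a k) {j N : ℕ}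
    (hN : j + 1 ≤ N) (hrec : ∀ k ≤ N, a k ≤ a N) {H τ : ℝ} (H0 : 0 < H) (H1 : 4 * H ≤ N)
    (τ0 : 0 ≤ τ) (htail : ∀ k ≤ N, H < N - k → a k ≤ τ * a N)
    (hτ : (N + 1) * N ^ 2 * τ * (((2 * N + 1) ^ j) ^ 2 * κ ^ (j + 1)) ≤ H) {Y : ℂ[X]}
    (hY : Y.natDegree ≤ j) (hK : ∀ P : ℂ[X], P.natDegree ≤ j →
      ∑ k ∈ range (N + 1), a k * (conj (Y.eval (k : ℂ)) * P.eval (k : ℂ)) = P.eval (N : ℂ)) :
    (N / (4 * H)) ^ j ≤ (N + 1) * a N * ‖Y.eval 0‖ := by
  have hw : ∀ k ≤ N, (0 : ℝ) ≤ N - k := fun k hk => sub_nonneg.mpr (by exact_mod_cast hk)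
  have sb : ∀ R : ℂ[X], R.natDegree ≤ j → ∀ k ≤ N, _ := fun R hR k hk =>
    sup_bound ha h1 hκ hR hN hw (fun k hk => by
      have : ((k + 1 : ℕ) : ℝ) ≤ N := by exact_mod_cast hk
      push_cast at this
      linarith) hk
  have aN := ha N
  have y1 : 1 ≤ (N + 1) * a N * ‖Y.eval (N : ℂ)‖ := by
    have b1 := congrArg norm (hK 1 (by simp))
    have b2 : (nrm a (N + 1) fun k => Y.eval (k : ℂ)) = ‖Y.eval (N : ℂ)‖ := by
      rw [← hK Y hY, ← Real.norm_of_nonneg (nrm_nonneg ha _ _), ← Complex.norm_real, nrm]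
      simp [Complex.conj_mul']
    have b3 := cs ha (N + 1) fun k => Y.eval (k : ℂ)
    have b4 : 1 ≤ ∑ k ∈ range (N + 1), a k * ‖Y.eval (k : ℂ)‖ := by
      rw [eval_one, norm_one] at b1
      exact b1.ge.trans ((norm_sum_le _ _).trans (by simp [abs_of_pos (ha _)]))
    have b5 : ps a (N + 1) ≤ (N + 1) * a N := by
      simpa [ps] using sum_le_card_nsmul (range (N + 1)) a _ fun k hk =>
        hrec k (Nat.le_of_lt_succ (mem_range.mp hk))
    rw [b2] at b3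
    exact (one_le_pow₀ b4).trans (b3.trans (by gcongr))
  have y0 : 0 < ‖Y.eval (N : ℂ)‖ := (pos_iff_pos_of_mul_pos (one_pos.trans_le y1)).mp (by positivity)
  have hP : ∀ R : ℂ[X], R.natDegree + 1 ≤ j → ∑ k ∈ range (N + 1),
      a k * (conj (Y.eval (k : ℂ)) * ((N - k) * R.eval (k : ℂ))) = 0 := fun R hR => by
    have := hK ((C (N : ℂ) - X) * R) (natDegree_mul_le.trans (by
      rw [← neg_sub, natDegree_neg, natDegree_X_sub_C]; omega))
    simpa only [eval_mul, eval_sub, eval_C, eval_X, sub_self, zero_mul] using this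
  have hd : Y.natDegree = j := by
    by_contra hc
    have b1 := hP Y (by omega)
    have b2 : ∑ k ∈ range (N + 1), a k * ((N - k) * ‖Y.eval (k : ℂ)‖ ^ 2) = 0 := by
      rw [← Complex.ofReal_eq_zero, ← b1]
      push_cast
      exact sum_congr rfl fun k _ => by rw [← Complex.conj_mul']; ring
    have := sb Y hY N le_rfl
    rw [b2, mul_zero] at this
    exact absurd this (not_le.mpr (by positivity))
  refine le_trans (le_mul_of_one_le_right (by positivity) y1) ?_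
  rw [mul_left_comm, ← hd]
  refine mul_le_mul_of_nonneg_left (eval_cmp (by positivity) _ _ _ fun y hy => ?_) (by positivity)
  obtain ⟨R, hR⟩ := dvd_iff_isRoot.mpr (isRoot_of_mem_roots hy)
  have R0 : R ≠ 0 := fun h => by simp [hR, h] at y0
  have R1 : R.natDegree + 1 ≤ j := by
    rw [← hd, hR, natDegree_mul (X_sub_C_ne_zero y) R0, natDegree_X_sub_C, add_comm]
  set A := ∑ k ∈ range (N + 1), a k * ((N - k) * ‖R.eval (k : ℂ)‖ ^ 2) with hA
  have sR := sb R (by omega)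
  have A0 : 0 < A := by
    have := sR N le_rfl
    have h2 : 0 < ‖R.eval (N : ℂ)‖ := by
      rw [hR, eval_mul, norm_mul] at y0
      exact (norm_nonneg _).lt_of_ne fun h => by simp [← h] at y0
    exact (pos_iff_pos_of_mul_pos
      ((by positivity : 0 < a N * ‖R.eval (N : ℂ)‖ ^ 2).trans_le this)).mp (by positivity)
  have b1 : conj ((N : ℂ) - y) * A =
      (∑ k ∈ range (N + 1), a k * ((N - k) ^ 2 * ‖R.eval (k : ℂ)‖ ^ 2) : ℝ) := by
    rw [← sub_eq_zero, ← hP R R1, hA]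
    push_cast
    rw [mul_sum, ← sum_sub_distrib]
    refine sum_congr rfl fun k _ => ?_
    rw [← Complex.conj_mul', hR]
    simp only [eval_mul, eval_sub, eval_X, eval_C, map_mul, map_sub, map_natCast]
    ring
  have b2 : ∑ k ∈ range (N + 1), a k * ((N - k) ^ 2 * ‖R.eval (k : ℂ)‖ ^ 2) ≤ 2 * H * A := by
    calc _ ≤ ∑ k ∈ range (N + 1), (H * (a k * ((N - k) * ‖R.eval (k : ℂ)‖ ^ 2)) +
          N ^ 2 * τ * (((2 * N + 1) ^ j) ^ 2 * κ ^ (j + 1) * A)) := by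
          refine sum_le_sum fun k hk => ?_
          have k1 := Nat.le_of_lt_succ (mem_range.mp hk)
          have k2 := hw k k1
          have k3 := ha k
          rcases le_or_gt ((N : ℝ) - k) H with h | h
          · refine le_add_of_le_of_nonneg ?_ (by positivity)
            rw [mul_left_comm H, ← mul_assoc H, sq]
            gcongr
          · refine le_add_of_nonneg_of_le (by positivity) ?_
            calc _ ≤ τ * a N * (N ^ 2 * ‖R.eval (k : ℂ)‖ ^ 2) := by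
                  gcongr
                  exacts [htail k k1 h, sub_le_self _ (by positivity)]
              _ = N ^ 2 * τ * (a N * ‖R.eval (k : ℂ)‖ ^ 2) := by ring
              _ ≤ _ := mul_le_mul_of_nonneg_left (sR k k1) (by positivity)
      _ ≤ _ := by
          rw [sum_add_distrib, ← mul_sum, sum_const, card_range, nsmul_eq_mul]
          push_cast
          linarith [mul_le_mul_of_nonneg_right hτ A0.le]
  have b3 : ‖(N : ℂ) - y‖ ≤ 2 * H := by
    have := congrArg norm b1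
    rw [norm_mul, Complex.norm_conj, Complex.norm_real, Complex.norm_real,
      Real.norm_of_nonneg A0.le] at this
    refine le_of_mul_le_mul_right (this.trans_le ((Real.norm_of_nonneg ?_).trans_le b2)) A0
    exact sum_nonneg fun k _ => by have := ha k; positivity
  have b4 := norm_sub_norm_le (N : ℂ) y
  rw [Complex.norm_natCast] at b4
  rw [zero_sub, norm_neg]
  calc _ ≤ N / (4 * H) * (2 * H) := by gcongr
    _ = N / 2 := by field_simp; ring
    _ ≤ _ := by linarith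

theorem top_coeff {c : ℕ → ℂ} {N r : ℕ} {η B : ℝ} {ζ : Fin (r + 1) → ℂ} (h1 : ∀ s, ‖ζ s‖ = 1)
    (h2 : ∀ s t, s ≠ t → 2 * η ≤ ‖ζ s - ζ t‖)
    (h3 : ∀ z : ℂ, ‖z‖ = 1 → η ≤ ‖z - 1‖ → ‖∑ k ∈ range (N + 1), c k * z ^ k‖ ≤ 1)
    (h4 : ∀ z : ℂ, ‖z‖ = 1 → ‖∑ k ∈ range (N + 1), c k * z ^ k‖ ≤ B) : ‖c N‖ ^ (r + 1) ≤ B := by
  have := Complex.norm_le_of_forall_mem_frontier_norm_le (U := Metric.ball 0 1) (C := B) (z := 0)
    (f := fun w => ∏ s, ∑ k ∈ range (N + 1), c k * (ζ s * w) ^ (N - k)) Metric.isBounded_ball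
    (Differentiable.diffContOnCl (by fun_prop)) (fun w hw => ?_)
    (subset_closure (Metric.mem_ball_self one_pos))
  · rw [prod_congr rfl (g := fun _ => c N) fun s _ => by
      rw [sum_range_succ, sum_eq_zero fun k hk => by
        simp [Nat.sub_ne_zero_of_lt (mem_range.mp hk)]]
      simp] at this
    simpa using this
  rw [frontier_ball _ one_ne_zero, mem_sphere_zero_iff_norm] at hw
  have e1 : ∀ s, ‖ζ s * w‖ = 1 := fun s => by simp [h1, hw]
  have e2 : ∀ s, ‖∑ k ∈ range (N + 1), c k * (ζ s * w) ^ (N - k)‖ =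
      ‖∑ k ∈ range (N + 1), c k * conj (ζ s * w) ^ k‖ := fun s => by
    rw [← mul_one ‖∑ k ∈ range (N + 1), c k * conj _ ^ k‖,
      show (1 : ℝ) = ‖(ζ s * w) ^ N‖ by rw [norm_pow, e1, one_pow], ← norm_mul, sum_mul]
    congr 1
    refine sum_congr rfl fun k hk => ?_
    obtain ⟨l, rfl⟩ := Nat.exists_eq_add_of_le (Nat.le_of_lt_succ (mem_range.mp hk))
    rw [Nat.add_sub_cancel_left, pow_add, mul_assoc, ← mul_assoc (_ ^ k), ← mul_pow (conj _),
      Complex.conj_mul', e1]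
    simp
  obtain ⟨s, hs⟩ : ∃ s, ∀ t, t ≠ s → η ≤ ‖ζ t * w - 1‖ := by
    by_cases h : ∃ s, ‖ζ s * w - 1‖ < η
    · obtain ⟨s, hs⟩ := h
      refine ⟨s, fun t ht => ?_⟩
      have b1 := norm_sub_le (ζ t * w - 1) (ζ s * w - 1)
      rw [sub_sub_sub_cancel_right, ← sub_mul, norm_mul, hw, mul_one] at b1
      linarith [h2 t s ht]
    · exact ⟨0, fun t _ => not_lt.mp fun h' => h ⟨t, h'⟩⟩
  rw [norm_prod, ← mul_prod_erase _ _ (mem_univ s), ← mul_one B]
  refine mul_le_mul (by rw [e2]; exact h4 _ (by simpa using e1 s)) (prod_le_one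
    (fun _ _ => norm_nonneg _) fun t ht => ?_) (by positivity)
    ((norm_nonneg _).trans (h4 1 norm_one))
  rw [e2]
  refine h3 _ (by simpa using e1 t) ?_
  rw [← Complex.norm_conj, map_sub, Complex.conj_conj, map_one]
  exact hs t (ne_of_mem_erase ht)

theorem exists_points (r : ℕ) : ∃ (η : ℝ) (ζ : Fin (r + 1) → ℂ), 0 < η ∧ (∀ s, ‖ζ s‖ = 1) ∧
    ∀ s t, s ≠ t → 2 * η ≤ ‖ζ s - ζ t‖ := by
  have h := Complex.isPrimitiveRoot_exp (r + 1) (by omega)
  set ζ := Complex.exp (2 * Real.pi * Complex.I / (r + 1 : ℕ))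
  have h1 : ∀ᶠ η : ℝ in 𝓝[>] 0, ∀ s t : Fin (r + 1), s ≠ t → 2 * η ≤ ‖ζ ^ s.1 - ζ ^ t.1‖ := by
    simp only [eventually_all]
    intro s t hst
    have : 0 < ‖ζ ^ s.1 - ζ ^ t.1‖ / 2 :=
      half_pos (norm_pos_iff.mpr (sub_ne_zero.mpr fun e => hst (Fin.ext (h.pow_inj s.2 t.2 e))))
    filter_upwards [nhdsWithin_le_nhds (Iio_mem_nhds this)] with η hη
    linarith [Set.mem_Iio.mp hη]
  obtain ⟨η, h2, h3⟩ := (h1.and self_mem_nhdsWithin).exists
  exact ⟨η, fun s => ζ ^ s.1, h3, fun s => by rw [norm_pow, h.norm'_eq_one (by omega), one_pow], h2⟩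

end Pool.Agent.Lib.MP_83ec3d_an
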