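import Pool.Agent.Lib.MP_83ec3d_an.Opa

open Polynomial Finset Filter Topology
open scoped ComplexConjugate

namespace Pool.Agent.Lib.MP_83ec3d_an

variable {a ω : ℕ → ℝ}

noncomputable def bnd (a : ℕ → ℝ) (U : ℕ → ℂ) (n d i : ℕ) : ℝ :=
  ∑ k ∈ range i, a k * ‖U k‖ + ∑ j ∈ range (n + 1), |a (j + i) - a j| * ‖U (j + i)‖ +
    ∑ l ∈ range (d - i), a (n + 1 + (i + l)) * ‖U (n + 1 + (i + l))‖

theorem abel_one (ha : ∀ k, 0 < a k) (U : ℕ → ℂ) (n : ℕ) {d i : ℕ} (hi : i ≤ d) {z : ℂ}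
    (hz : ‖z‖ = 1) :
    ‖conj z ^ i * ∑ k ∈ range (n + d + 1), a k * U k * z ^ k -
      ∑ j ∈ range (n + 1), a j * U (j + i) * z ^ j‖ ≤ bnd a U n d i := by
  have h1 : conj z ^ i * z ^ i = 1 := by
    rw [← mul_pow, Complex.conj_mul', hz]
    simp
  rw [show n + d + 1 = i + (n + 1) + (d - i) by omega, sum_range_add, sum_range_add, mul_add,
    mul_add, add_sub_right_comm, add_sub_assoc, mul_sum (range (n + 1)), ← sum_sub_distrib, bnd]
  refine norm_add₃_le.trans (add_le_add (add_le_add ?_ ?_) ?_)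
  · rw [norm_mul]
    simpa [hz, abs_of_pos (ha _)] using norm_sum_le (range i) fun k => a k * U k * z ^ k
  · refine (norm_sum_le _ _).trans (le_of_eq (sum_congr rfl fun j _ => ?_))
    have : conj z ^ i * (a (i + j) * U (i + j) * z ^ (i + j)) - a j * U (j + i) * z ^ j =
        ((a (j + i) - a j : ℝ) : ℂ) * U (j + i) * z ^ j := by
      rw [add_comm i j, pow_add]
      push_cast
      linear_combination (a (j + i) * U (j + i) * z ^ j) * h1
    rw [this, norm_mul, norm_mul, Complex.norm_real, norm_pow, hz, one_pow, mul_one,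
      Real.norm_eq_abs]
  · rw [norm_mul]
    simpa [hz, abs_of_pos (ha _), add_comm, add_left_comm, add_assoc] using
      norm_sum_le (range (d - i)) fun l =>
        a (i + (n + 1) + l) * U (i + (n + 1) + l) * z ^ (i + (n + 1) + l)

theorem key_bound (hω : ∀ k, 0 < ω k) {f q : ℂ[X]} {n : ℕ} (h : IsOPA ω f n q) {z : ℂ}
    (hz : ‖z‖ ≤ 1) : ‖f.eval z * (1 - q.eval z * f.eval z)‖ ≤
      ∑ i ∈ range (f.natDegree + 1),
        ‖f.coeff i‖ * bnd (fun k => (ω k)⁻¹) (UU ω f q) n f.natDegree i := by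
  refine Complex.norm_le_of_forall_mem_frontier_norm_le (U := Metric.ball 0 1)
    (f := fun z => f.eval z * (1 - q.eval z * f.eval z)) Metric.isBounded_ball
    (Differentiable.diffContOnCl (by fun_prop)) (fun w hw => ?_)
    (by simpa [closure_ball (0 : ℂ) one_ne_zero] using hz)
  rw [frontier_ball _ one_ne_zero, mem_sphere_zero_iff_norm] at hw
  have h1 : ∑ i ∈ range (f.natDegree + 1), conj (f.coeff i) *
      ∑ j ∈ range (n + 1), ((ω j)⁻¹ : ℝ) * UU ω f q (j + i) * w ^ j = 0 := by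
    simp only [mul_sum]
    rw [sum_comm]
    refine sum_eq_zero fun j hj => ?_
    have := opa_rec hω h (Nat.le_of_lt_succ (mem_range.mp hj))
    rw [act_apply (Nat.lt_succ_of_le natDegree_map_le)] at this
    simp only [coeff_map] at this
    rw [← mul_zero (((ω j)⁻¹ : ℝ) * w ^ j), ← this, mul_sum]
    exact sum_congr rfl fun i _ => by ring
  rw [norm_mul, ← Complex.norm_conj (f.eval w), ← norm_mul, eval_eq hω h.1, eval_eq_sum_range,
    map_sum, sum_mul, ← sub_zero (∑ _ ∈ _, _), ← h1, ← sum_sub_distrib]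
  refine (norm_sum_le _ _).trans (sum_le_sum fun i hi => ?_)
  rw [map_mul, map_pow, mul_assoc, ← mul_sub, norm_mul, Complex.norm_conj]
  exact mul_le_mul_of_nonneg_left (abel_one (fun k => inv_pos.mpr (hω k)) _ n
    (Nat.le_of_lt_succ (mem_range.mp hi)) hw) (norm_nonneg _)

theorem sq_to_zero {u v : ℕ → ℝ} (h0 : ∀ n, 0 ≤ u n) (h : ∀ n, u n ^ 2 ≤ v n)
    (hv : Tendsto v atTop (𝓝 0)) : Tendsto u atTop (𝓝 0) :=
  squeeze_zero h0 (fun n => Real.le_sqrt_of_sq_le (h n)) (by simpa using hv.sqrt)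

structure Small (a E : ℕ → ℝ) : Prop where
  h1 : Tendsto E atTop (𝓝 0)
  h2 : ∀ l, Tendsto (fun n => a (n + 1 + l) * E n) atTop (𝓝 0)
  h3 : ∀ i, Tendsto (fun n => (∑ j ∈ range (n + 1), (a (j + i) - a j) ^ 2 / a (j + i)) * E n)
    atTop (𝓝 0)

theorem bnd_tendsto (ha : ∀ k, 0 < a k) {U : ℕ → ℕ → ℂ} {E : ℕ → ℝ}
    (hE : ∀ n M, nrm a M (U n) ≤ E n) (hs : Small a E) (d i : ℕ) :
    Tendsto (fun n => bnd a (U n) n d i) atTop (𝓝 0) := by
  have p1 : ∀ n k, (a k * ‖U n k‖) ^ 2 ≤ a k * E n := fun n k => by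
    rw [mul_pow, sq (a k), mul_assoc]
    refine mul_le_mul_of_nonneg_left (le_trans ?_ (hE n (k + 1))) (ha k).le
    rw [nrm, sum_range_succ]
    exact le_add_of_nonneg_left (nrm_nonneg ha k _)
  have p0 : ∀ n k, 0 ≤ a k * ‖U n k‖ := fun n k => mul_nonneg (ha k).le (norm_nonneg _)
  have t1 := tendsto_finsetSum (range i) fun k _ =>
    sq_to_zero (p0 · k) (p1 · k) (by simpa using hs.h1.const_mul (a k))
  have t2 := tendsto_finsetSum (range (d - i)) fun l _ =>
    sq_to_zero (fun n => p0 n _) (fun n => p1 n _) (hs.h2 (i + l))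
  have t3 : Tendsto (fun n => ∑ j ∈ range (n + 1), |a (j + i) - a j| * ‖U n (j + i)‖) atTop
      (𝓝 0) := by
    refine sq_to_zero (fun n => by positivity) (fun n => ?_) (hs.h3 i)
    have b : ∀ j, 0 ≤ (a (j + i) - a j) ^ 2 / a (j + i) := fun j => by
      have := ha (j + i); positivity
    refine (sum_sq_le_sum_mul_sum_of_sq_le_mul _ (g := fun j => a (j + i) * ‖U n (j + i)‖ ^ 2)
      (fun j _ => b j) (fun j _ => by have := ha (j + i); positivity) fun j _ => le_of_eq ?_).trans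
      (mul_le_mul_of_nonneg_left (le_trans ?_ (hE n (i + (n + 1)))) (sum_nonneg fun j _ => b j))
    · have := ha (j + i)
      rw [mul_pow, sq_abs]
      field_simp
    · rw [nrm, sum_range_add _ i]
      simp only [add_comm i]
      exact le_add_of_nonneg_left (nrm_nonneg ha i _)
  simpa [bnd] using (t1.add t3).add t2

theorem ratio_bounds (hω : Admissible ω) : ∃ κ, 1 ≤ κ ∧ (∀ k, (ω k)⁻¹ ≤ κ * (ω (k + 1))⁻¹) ∧
    ∀ k, (ω (k + 1))⁻¹ ≤ κ * (ω k)⁻¹ := by
  obtain ⟨c, hc⟩ := hω.2.2.bddAbove_range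
  obtain ⟨c', hc'⟩ := (hω.2.2.inv₀ one_ne_zero).bddAbove_range
  refine ⟨max 1 (max c c'), le_max_left _ _, fun k => ?_, fun k => ?_⟩
  · have := (hc' ⟨k, rfl⟩).trans ((le_max_right c c').trans (le_max_right 1 _))
    rwa [← div_le_iff₀ (inv_pos.mpr (hω.1 _)), inv_div_inv, ← inv_div]
  · have := (hc ⟨k, rfl⟩).trans ((le_max_left c c').trans (le_max_right 1 _))
    rwa [← div_le_iff₀ (inv_pos.mpr (hω.1 _)), inv_div_inv]

theorem converges_of (hω : Admissible ω) {f : ℂ[X]} (hf : ∀ z, f.IsRoot z → 1 ≤ ‖z‖) {μ : ℕ}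
    (hμ : ∀ z, f.rootMultiplicity z ≤ μ + 1)
    (H : ∀ (E : ℕ → ℝ) (D : ℕ) (C : ℝ), 0 ≤ C → (∀ n, 0 ≤ E n) →
      (∀ n k Γ, 0 ≤ Γ → k + D ≤ n → Rem (fun k => (ω k)⁻¹) μ k Γ → E n ≤ C * Γ) →
      Small (fun k => (ω k)⁻¹) E) : Converges ω f := by
  intro q hq K hK hKs
  have ha : ∀ k, 0 < (ω k)⁻¹ := fun k => inv_pos.mpr (hω.1 k)
  obtain ⟨κ, k1, k2, -⟩ := ratio_bounds hω
  obtain ⟨D, C, c0, hC⟩ := reduce ha k1 k2 μ _ (f.map (starRingEnd ℂ)) rfl
    (fun z hz => by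
      rw [← Complex.conj_conj z, isRoot_map_iff (starRingEnd ℂ).injective] at hz
      simpa using hf _ hz)
    fun z => by
      rw [← Complex.conj_conj z, ← eq_rootMultiplicity_map (starRingEnd ℂ).injective]
      exact hμ _
  have hs := H (fun n => ‖UU ω f (q n) 0‖) D C c0 (fun _ => norm_nonneg _) fun n k Γ g0 hk hR => by
    have h1 := (hC k Γ _ g0 (fun j hj => opa_rec hω.1 (hq n) (by omega)) hR).trans
      (mul_le_mul_of_nonneg_left (opa_nrm_le hω.1 hω.2.1 (hq n) _) (mul_nonneg c0 g0))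
    rcases (norm_nonneg (UU ω f (q n) 0)).eq_or_lt with h | h
    · rw [← h]
      positivity
    · exact le_of_mul_le_mul_right (by rwa [← sq]) h
  have t := tendsto_finsetSum (range (f.natDegree + 1)) fun i _ =>
    (bnd_tendsto ha (fun n => opa_nrm_le hω.1 hω.2.1 (hq n)) hs f.natDegree i).const_mul
      ‖f.coeff i‖
  simp only [mul_zero, sum_const_zero] at t
  obtain ⟨c, c1, hc⟩ := hK.exists_forall_le' (f := fun z => ‖f.eval z‖) (a := 0) (by fun_prop)
    fun z hz => norm_pos_iff.mpr (hKs hz).2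
  refine Metric.tendstoUniformlyOn_iff.mpr fun ε hε => ?_
  filter_upwards [t.eventually (gt_mem_nhds (mul_pos c1 hε))] with n hn z hz
  have h1 := (key_bound hω.1 (hq n) (mem_closedBall_zero_iff.mp (hKs hz).1)).trans_lt hn
  rw [Pi.zero_apply, dist_zero_left]
  rw [norm_mul] at h1
  exact lt_of_mul_lt_mul_left ((mul_le_mul_of_nonneg_right (hc z hz) (norm_nonneg _)).trans_lt h1)
    c1.le

end Pool.Agent.Lib.MP_83ec3d_an
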