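import Pool.Agent.Lib.MP_83ec3d_an.Ker

open Polynomial Finset Filter Topology
open scoped ComplexConjugate

namespace Pool.Agent.Lib.MP_83ec3d_an

variable {ω : ℕ → ℝ}

theorem nec_sum (hω : Admissible ω) (h : Converges ω (X - C 1)) :
    Tendsto (ps fun k => (ω k)⁻¹) atTop atTop := by
  have ha : ∀ k, 0 < (ω k)⁻¹ := fun k => inv_pos.mpr (hω.1 k)
  refine tendsto_atTop_atTop_of_monotone' (fun _ _ => ps_mono ha) fun ⟨B, hB⟩ => ?_
  choose q hq using exists_opa hω.1 (X - C 1)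
  have h1 := (h q hq {0} isCompact_singleton (by simp)).tendsto_at rfl
  have h2 := h1.norm.const_mul B
  simp only [Pi.zero_apply, norm_zero, mul_zero] at h2
  refine absurd (ge_of_tendsto' h2 fun n => ?_) (not_le.mpr one_pos)
  have h3 := congrArg norm (eval_eq hω.1 (f := X - C 1) (hq n).1 1)
  have h4 := cs ha (n + (X - C 1 : ℂ[X]).natDegree + 1) (UU ω (X - C 1) (q n))
  rw [opa_nrm hω.1 hω.2.1 (hq n)] at h4
  have h5 : UU ω (X - C 1) (q n) 0 = 1 - (q n).eval 0 * (X - C 1 : ℂ[X]).eval 0 := by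
    simp [UU, hω.2.1, coeff_zero_eq_eval_zero]
  rw [← h5]
  refine le_trans (one_le_pow₀ ?_) (h4.trans (mul_le_mul_of_nonneg_right (hB ⟨_, rfl⟩)
    (norm_nonneg _)))
  rw [eval_sub, eval_X, eval_C, sub_self, mul_zero, sub_zero, norm_one] at h3
  exact h3.le.trans ((norm_sum_le _ _).trans (by simp [abs_of_pos (hω.1 _)]))

theorem act_fwd (m : ℕ) : ∀ V : ℂ → ℂ,
    act ((X - C 1) ^ m) (fun k => V k) = fun k : ℕ => (fwdDiff 1)^[m] V k := by
  induction m with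
  | zero => simp [act_one]
  | succ m ih =>
    intro V
    rw [pow_succ, act_mul, Function.iterate_succ_apply, ← ih]
    congr 1
    ext k
    simp [-map_one, act_lin, fwdDiff]

theorem top_lower (hω : Admissible ω) {κ : ℝ} (h1 : 1 ≤ κ)
    (hκ : ∀ k, (ω (k + 1))⁻¹ ≤ κ * (ω k)⁻¹) {j n N : ℕ} (hN : N = n + (j + 1)) {q : ℂ[X]}
    (hq : IsOPA ω ((X - C 1) ^ (j + 1)) n q) (hrec : ∀ k ≤ N, (ω k)⁻¹ ≤ (ω N)⁻¹) {H τ : ℝ}
    (H0 : 0 < H) (H1 : 4 * H ≤ N) (τ0 : 0 ≤ τ)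
    (htail : ∀ k ≤ N, H < N - k → (ω k)⁻¹ ≤ τ * (ω N)⁻¹)
    (hτ : (N + 1) * N ^ 2 * τ * (((2 * N + 1) ^ j) ^ 2 * κ ^ (j + 1)) ≤ H) {r : ℕ} {η : ℝ}
    {ζ : Fin (r + 1) → ℂ} (z1 : ∀ s, ‖ζ s‖ = 1) (z2 : ∀ s t, s ≠ t → 2 * η ≤ ‖ζ s - ζ t‖)
    (h3 : ∀ z : ℂ, ‖z‖ = 1 → η ≤ ‖z - 1‖ →
      ‖1 - q.eval z * ((X - C 1 : ℂ[X]) ^ (j + 1)).eval z‖ ≤ 1) :
    ((N / (4 * H)) ^ j / (N + 1)) ^ (r + 1) ≤ (N + 1) * (((2 * N + 1) ^ j) ^ 2 * κ ^ (j + 1)) := by
  have ha : ∀ k, 0 < (ω k)⁻¹ := fun k => inv_pos.mpr (hω.1 k)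
  set f : ℂ[X] := (X - C 1) ^ (j + 1) with hf
  have hd : n + f.natDegree = N := by rw [hf, natDegree_pow, natDegree_X_sub_C, mul_one, hN]
  obtain ⟨p, p1, p2⟩ := sol_poly one_ne_zero (m := j + 1) (n := n + 1) (U := UU ω f q)
    fun i hi => by simpa [hf] using opa_rec hω.1 hq (Nat.le_of_lt_succ hi)
  simp only [one_pow, one_mul] at p2
  obtain ⟨Y, y1, y2⟩ := exists_kernel ha j N
  have k1 := kernel_lower ha h1 hκ (by omega) hrec H0 H1 τ0 htail hτ y1 y2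
  have k2 : UU ω f q N = conj (Y.eval 0) := by
    have b1 := act_apply (deg_lt' (f := f) hq.1) (fun k => (Y.map (starRingEnd ℂ)).eval (k : ℂ)) 0
    rw [act_sub, act_mul, act_one, act_fwd _ (Y.map (starRingEnd ℂ)).eval,
      fwdDiff_iter_eq_zero_of_degree_lt (natDegree_map_le.trans_lt (by omega)), hd] at b1
    simp only [eval_natCast_map, coeff_eq hω.1, zero_add, Pi.sub_apply, Pi.zero_apply] at b1
    rw [show act q (fun _ => 0) 0 = 0 from congrFun (map_zero (aeval Sf q)) 0, sub_zero,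
      Nat.cast_zero] at b1
    rw [p2 N (by omega), ← y2 p p1, b1]
    exact sum_congr rfl fun k hk => by rw [p2 k (by have := mem_range.mp hk; omega)]; ring
  have k3 := opa_nrm hω.1 hω.2.1 hq
  rw [hd] at k3
  have k4 := sup_bound ha h1 hκ p1 (N := N) (by omega) (w := fun _ => 1) (by simp) (by simp)
    (Nat.zero_le N)
  rw [← p2 0 (by omega), sum_congr rfl (g := fun k => (ω k)⁻¹ * ‖UU ω f q k‖ ^ 2) fun k hk => by
    rw [p2 k (by have := mem_range.mp hk; omega), one_mul], ← nrm, k3] at k4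
  set L := ((2 * N + 1 : ℝ) ^ j) ^ 2 * κ ^ (j + 1) with hL
  have N0 : (0 : ℝ) ≤ N := Nat.cast_nonneg N
  have L1 : 1 ≤ (N + 1) * L := one_le_mul_of_one_le_of_one_le (by linarith)
    (one_le_mul_of_one_le_of_one_le (one_le_pow₀ (one_le_pow₀ (by linarith))) (one_le_pow₀ h1))
  have k5 : (ω N)⁻¹ * ‖UU ω f q 0‖ ≤ L := by
    rcases (norm_nonneg (UU ω f q 0)).eq_or_lt with h | h
    · rw [← h, mul_zero]
      positivity
    · exact le_of_mul_le_mul_right (by rwa [mul_assoc, ← sq]) h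
  have k6 : ps (fun k => (ω k)⁻¹) (N + 1) ≤ (N + 1) * (ω N)⁻¹ := by
    simpa [ps] using sum_le_card_nsmul (range (N + 1)) (fun k => (ω k)⁻¹) _ fun k hk =>
      hrec k (Nat.le_of_lt_succ (mem_range.mp hk))
  have k7 := cs ha (N + 1) (UU ω f q)
  rw [k3] at k7
  have k8 : ∑ k ∈ range (N + 1), (ω k)⁻¹ * ‖UU ω f q k‖ ≤ (N + 1) * L := by
    refine (sq_le_sq₀ (sum_nonneg fun k _ => by have := ha k; positivity) (by positivity)).mp
      (k7.trans ((mul_le_mul_of_nonneg_right k6 (norm_nonneg _)).trans ?_))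
    rw [mul_assoc]
    exact (mul_le_mul_of_nonneg_left k5 (by positivity)).trans (le_self_pow₀ L1 two_ne_zero)
  refine le_trans ?_ (top_coeff (c := fun k => ((ω k)⁻¹ : ℝ) * UU ω f q k) (N := N) z1 z2
    (fun z a b => by rw [← hd, ← eval_eq hω.1 hq.1]; exact h3 z a b) fun z a =>
      (norm_sum_le _ _).trans (le_trans (by simp [a, abs_of_pos (hω.1 _)]) k8))
  gcongr
  rw [div_le_iff₀' (by positivity), norm_mul, k2, Complex.norm_conj, Complex.norm_real,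
    Real.norm_of_nonneg (ha N).le, ← mul_assoc]
  exact k1

theorem exists_record {φ : ℕ → ℝ} (h : ∀ B, ∃ k, B < φ k) (N0 : ℕ) :
    ∃ N ≥ N0, ∀ k ≤ N, φ k ≤ φ N := by
  obtain ⟨B, hB⟩ := ((Set.finite_lt_nat N0).image φ).bddAbove
  obtain ⟨k, hk⟩ := h B
  obtain ⟨N, h1, h2⟩ := exists_max_image (range (k + 1)) φ ⟨k, by simp⟩
  refine ⟨N, not_lt.mp fun hN => ?_, fun i hi => h2 i (by simp at *; omega)⟩
  linarith [hB ⟨N, hN, rfl⟩, h2 k (by simp)]

theorem rpow_gap {δ H N k : ℝ} (h0 : 0 ≤ δ) (h1 : δ ≤ 1) (hN : 0 < N) (hk : 0 ≤ k)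
    (h : H ≤ N - k) : k ^ δ - N ^ δ ≤ -(δ * (H * N ^ (δ - 1))) := by
  have b1 := rpow_one_add_le_one_add_mul_self (s := k / N - 1)
    (by have : 0 ≤ k / N := by positivity
        linarith) h0 h1
  rw [add_sub_cancel, Real.div_rpow hk hN.le, div_le_iff₀ (by positivity)] at b1
  have b2 : (k / N - 1) * N ^ δ = -((N - k) * N ^ (δ - 1)) := by
    rw [Real.rpow_sub_one hN.ne']
    field_simp
    ring
  have b3 := mul_le_mul_of_nonneg_left
    (mul_le_mul_of_nonneg_right h (by positivity : 0 ≤ N ^ (δ - 1))) h0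
  have b4 : (1 + δ * (k / N - 1)) * N ^ δ = N ^ δ - δ * ((N - k) * N ^ (δ - 1)) := by
    linear_combination δ * b2
  linarith

theorem poly_le {N κ : ℝ} (hN : 1 ≤ N) (hκ : 0 ≤ κ) (j : ℕ) :
    (N + 1) * (((2 * N + 1) ^ j) ^ 2 * κ ^ (j + 1)) ≤
      2 * (3 ^ j) ^ 2 * κ ^ (j + 1) * N ^ (2 * j + 1) := by
  calc _ ≤ (2 * N) * (((3 * N) ^ j) ^ 2 * κ ^ (j + 1)) := by gcongr <;> linarith
    _ = _ := by ring

theorem nec_growth (hω : Admissible ω) (h : ∀ m, Converges ω ((X - C 1) ^ m)) {ε : ℝ}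
    (hε : 0 < ε) : ∃ c > 0, ∀ k : ℕ, c * Real.exp (-(k : ℝ) ^ ε) ≤ ω k := by
  by_contra hc
  push Not at hc
  set δ := min ε 1 with hδ
  have d0 : 0 < δ := lt_min hε one_pos
  have d1 : δ ≤ 1 := min_le_right _ _
  have hφ : ∀ B, ∃ k : ℕ, B < (ω k)⁻¹ * Real.exp (-(k : ℝ) ^ δ) := fun B => by
    obtain ⟨k, hk⟩ := hc (|B| + 1)⁻¹ (by positivity)
    refine ⟨k, ?_⟩
    rw [lt_inv_mul_iff₀ (by positivity), mul_comm, ← lt_inv_mul_iff₀ (hω.1 k)] at hk
    refine ((le_abs_self B).trans_lt (lt_add_one _)).trans (hk.trans_le ?_)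
    refine mul_le_mul_of_nonneg_left (Real.exp_le_exp.mpr (neg_le_neg ?_))
      (inv_pos.mpr (hω.1 k)).le
    rcases Nat.eq_zero_or_pos k with rfl | k0
    · simp [hε.ne', d0.ne']
    · exact Real.rpow_le_rpow_of_exponent_le (by exact_mod_cast k0) (min_le_left _ _)
  obtain ⟨κ, k1, -, k3⟩ := ratio_bounds hω
  obtain ⟨j, hj⟩ := exists_nat_ge (6 / δ)
  obtain ⟨η, ζ, η0, z1, z2⟩ := exists_points (2 * j + 1)
  choose q hq using exists_opa hω.1 ((X - C 1) ^ (j + 1))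
  have hu := Metric.tendstoUniformlyOn_iff.mp (h _ q hq
    (Metric.sphere 0 1 ∩ {z | η ≤ ‖z - 1‖})
    ((isCompact_sphere 0 1).inter_right (isClosed_le continuous_const (by fun_prop)))
    fun z hz => ⟨Metric.sphere_subset_closedBall hz.1, fun h0 => by
      have h2 : z = 1 := by simpa [sub_eq_zero] using h0
      exact absurd hz.2 (by simp [h2, η0])⟩) 1 one_pos
  obtain ⟨n0, hn0⟩ := eventually_atTop.mp hu
  set c := 2 * (3 ^ j) ^ 2 * κ ^ (j + 1) with hc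
  have t0 := (tendsto_rpow_atTop (half_pos d0)).comp tendsto_natCast_atTop_atTop
  have t1 := ((tendsto_rpow_mul_exp_neg_mul_atTop_nhds_zero ((2 * j + 3 : ℕ) / (δ / 2)) δ d0).comp
    t0).const_mul c
  rw [mul_zero] at t1
  obtain ⟨N0, hN0⟩ := eventually_atTop.mp ((t1.eventually (gt_mem_nhds one_pos)).and
    ((t0.eventually_ge_atTop 4).and ((eventually_ge_atTop (n0 + (j + 1))).and
      (tendsto_natCast_atTop_atTop.eventually_gt_atTop (max c (2 * 4 ^ j))))))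
  obtain ⟨N, hN, hr⟩ := exists_record hφ N0
  obtain ⟨a1, a2, a3, a4⟩ := hN0 N hN
  have N1 : (1 : ℝ) ≤ N := by exact_mod_cast (by omega : 1 ≤ N)
  have N0' : (0 : ℝ) < N := by positivity
  simp only [Function.comp] at a1 a2
  have hr' : ∀ k ≤ N, (ω k)⁻¹ ≤ Real.exp ((k : ℝ) ^ δ - (N : ℝ) ^ δ) * (ω N)⁻¹ := fun k hk => by
    have := hr k hk
    rw [Real.exp_neg, Real.exp_neg, mul_inv_le_iff₀ (Real.exp_pos _)] at this
    rw [Real.exp_sub]
    exact this.trans (le_of_eq (by ring))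
  have e1 : (N : ℝ) ^ (1 - δ / 2) * (N : ℝ) ^ (δ / 2) = N := by
    rw [← Real.rpow_add N0']; simp
  have H0 : 0 < (N : ℝ) ^ (1 - δ / 2) := by positivity
  have key := top_lower hω k1 k3 (n := N - (j + 1)) (N := N) (by omega) (hq _)
    (fun k hk => (hr' k hk).trans (mul_le_of_le_one_left (inv_pos.mpr (hω.1 N)).le
      (Real.exp_le_one_iff.mpr (sub_nonpos.mpr
        (Real.rpow_le_rpow (by positivity) (by exact_mod_cast hk) d0.le)))))
    H0 (by linarith [mul_le_mul_of_nonneg_left a2 H0.le])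
    (τ := Real.exp (-δ * (N : ℝ) ^ (δ / 2))) (by positivity)
    (fun k hk h1 => (hr' k hk).trans (mul_le_mul_of_nonneg_right (Real.exp_le_exp.mpr (by
      have := rpow_gap d0.le d1 N0' (Nat.cast_nonneg k) h1.le
      rwa [← Real.rpow_add N0', show 1 - δ / 2 + (δ - 1) = δ / 2 by ring, ← neg_mul] at this))
      (inv_pos.mpr (hω.1 N)).le))
    (by
      refine le_trans ?_ (a1.le.trans (Real.one_le_rpow N1 (by linarith)))
      rw [← Real.rpow_mul N0'.le, mul_div_cancel₀ _ (half_pos d0).ne', Real.rpow_natCast]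
      have := mul_le_mul_of_nonneg_right (poly_le N1 (by positivity : 0 ≤ κ) j)
        (by positivity : 0 ≤ (N : ℝ) ^ 2 * Real.exp (-δ * (N : ℝ) ^ (δ / 2)))
      refine le_trans (le_of_eq (by ring)) (this.trans (le_of_eq ?_))
      rw [hc]
      ring) z1 z2
    fun z b1 b2 => by
      have := hn0 (N - (j + 1)) (by omega) z ⟨by simpa using b1, b2⟩
      rw [Pi.zero_apply, dist_zero_left] at this
      exact this.le
  have b1 : (N : ℝ) / (4 * (N : ℝ) ^ (1 - δ / 2)) = (N : ℝ) ^ (δ / 2) / 4 := by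
    rw [div_eq_div_iff (by positivity) (by positivity)]
    linarith
  have b2 : (N : ℝ) ^ 3 ≤ ((N : ℝ) ^ (δ / 2)) ^ j := by
    rw [← Real.rpow_natCast, ← Real.rpow_natCast, ← Real.rpow_mul N0'.le]
    refine Real.rpow_le_rpow_of_exponent_le N1 ?_
    rw [div_le_iff₀ d0] at hj
    push_cast
    linarith
  have b3 : (N : ℝ) ≤ ((N : ℝ) ^ (δ / 2) / 4) ^ j / (N + 1) := by
    rw [div_pow, le_div_iff₀ (by positivity), le_div_iff₀ (by positivity)]
    refine le_trans ?_ b2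
    calc (N : ℝ) * (N + 1) * 4 ^ j ≤ N * (2 * N) * 4 ^ j := by gcongr; linarith
      _ = N * N * (2 * 4 ^ j) := by ring
      _ ≤ N * N * N := by gcongr; exact (le_max_right _ _).trans a4.le
      _ = _ := by ring
  rw [b1] at key
  have b4 := ((pow_le_pow_left₀ N0'.le b3 _).trans key).trans (poly_le N1 (by positivity) j)
  rw [pow_succ'] at b4
  exact absurd (le_of_mul_le_mul_right b4 (by positivity))
    (not_le.mpr ((le_max_left _ _).trans_lt a4))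

end Pool.Agent.Lib.MP_83ec3d_an
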