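import Pool.Agent.Lib.MP_83ec3d_an.Remez
import Pool.Agent.Lib.MP_83ec3d_an.Defs

open Polynomial Finset Filter Topology
open scoped ComplexConjugate InnerProductSpace

namespace Pool.Agent.Lib.MP_83ec3d_an

noncomputable def emb (ω : ℕ → ℝ) (M : ℕ) : ℂ[X] →ₗ[ℂ] EuclideanSpace ℂ (Fin M) where
  toFun p := WithLp.toLp 2 fun k => (√(ω k) : ℝ) * p.coeff k
  map_add' p q := by ext k; simp [mul_add]
  map_smul' c p := by ext k; simp [mul_left_comm]

variable {ω : ℕ → ℝ}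

theorem inner_emb (hω : ∀ k, 0 < ω k) (M : ℕ) (p q : ℂ[X]) :
    ⟪emb ω M p, emb ω M q⟫_ℂ = ∑ k ∈ range M, conj (p.coeff k) * (ω k * q.coeff k) := by
  rw [sum_range, PiLp.inner_apply]
  refine sum_congr rfl fun k _ => ?_
  have : (ω k : ℂ) = (√(ω k) : ℝ) * (√(ω k) : ℝ) := by
    exact_mod_cast (Real.mul_self_sqrt (hω k).le).symm
  simp only [emb, LinearMap.coe_mk, AddHom.coe_mk, RCLike.inner_apply, map_mul,
    Complex.conj_ofReal]
  rw [this]
  ring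

theorem normSq_range {M : ℕ} {p : ℂ[X]} (h : p.natDegree < M) :
    normSq ω p = ∑ k ∈ range M, ω k * ‖p.coeff k‖ ^ 2 :=
  sum_subset (supp_subset_range h) fun k _ hk => by simp [notMem_support_iff.mp hk]

theorem norm_emb (hω : ∀ k, 0 < ω k) {M : ℕ} {p : ℂ[X]} (h : p.natDegree < M) :
    ‖emb ω M p‖ ^ 2 = normSq ω p := by
  rw [normSq_range h, EuclideanSpace.norm_sq_eq, sum_range]
  simp [emb, mul_pow, Real.sq_sqrt (hω _).le]

theorem deg_lt {f q : ℂ[X]} {n : ℕ} (h : q.natDegree ≤ n) :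
    (q * f - 1).natDegree < n + f.natDegree + 1 :=
  Nat.lt_succ_of_le ((natDegree_sub_le _ _).trans
    (max_le (natDegree_mul_le.trans (by omega)) (by simp)))

noncomputable def sub (ω : ℕ → ℝ) (f : ℂ[X]) (n : ℕ) :
    Submodule ℂ (EuclideanSpace ℂ (Fin (n + f.natDegree + 1))) :=
  (degreeLE ℂ n).map (emb ω _ ∘ₗ LinearMap.mulRight ℂ f)

theorem opa_iff (hω : ∀ k, 0 < ω k) {f q : ℂ[X]} {n : ℕ} (hq : q.natDegree ≤ n) :
    IsOPA ω f n q ↔ ∀ w ∈ sub ω f n, ⟪emb ω _ 1 - emb ω _ (q * f), w⟫_ℂ = 0 := by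
  have hm : ∀ p : ℂ[X], p.natDegree ≤ n → emb ω _ (p * f) ∈ sub ω f n := fun p hp =>
    ⟨p, mem_degreeLE.mpr (degree_le_of_natDegree_le hp), rfl⟩
  have hn : ∀ p : ℂ[X], p.natDegree ≤ n → normSq ω (p * f - 1) =
      ‖emb ω (n + f.natDegree + 1) 1 - emb ω _ (p * f)‖ ^ 2 := fun p hp => by
    rw [norm_sub_rev, ← map_sub, norm_emb hω (deg_lt hp)]
  have hb : BddBelow (Set.range fun w : sub ω f n => ‖emb ω _ 1 - w.1‖) :=
    ⟨0, by rintro _ ⟨w, rfl⟩; exact norm_nonneg _⟩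
  rw [← Submodule.norm_eq_iInf_iff_inner_eq_zero _ (hm q hq)]
  refine ⟨fun h => le_antisymm (le_ciInf ?_) (ciInf_le hb ⟨_, hm q hq⟩),
    fun h => ⟨hq, fun p hp => ?_⟩⟩
  · rintro ⟨_, p, hp, rfl⟩
    have hp' := natDegree_le_of_degree_le (mem_degreeLE.mp hp)
    have := h.2 p hp'
    rw [hn q hq, hn p hp'] at this
    exact (sq_le_sq₀ (norm_nonneg _) (norm_nonneg _)).mp this
  · rw [hn q hq, hn p hp, h]
    exact pow_le_pow_left₀ (Real.iInf_nonneg fun _ => norm_nonneg _) (ciInf_le hb ⟨_, hm p hp⟩) 2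

theorem exists_opa (hω : ∀ k, 0 < ω k) (f : ℂ[X]) (n : ℕ) : ∃ q, IsOPA ω f n q := by
  obtain ⟨q, hq, h⟩ := (sub ω f n).starProjection_apply_mem (emb ω _ 1)
  have hq' := natDegree_le_of_degree_le (mem_degreeLE.mp hq)
  refine ⟨q, (opa_iff hω hq').mpr fun w hw => ?_⟩
  have := (sub ω f n).starProjection_inner_eq_zero (emb ω _ 1) w hw
  rwa [← h] at this

/-- The sequence `ω_k c_k`, where `c_k` are the coefficients of `1 - q f`. -/
noncomputable def UU (ω : ℕ → ℝ) (f q : ℂ[X]) (k : ℕ) : ℂ := ω k * (1 - q * f).coeff k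

theorem coeff_eq (hω : ∀ k, 0 < ω k) (f q : ℂ[X]) (k : ℕ) :
    (1 - q * f).coeff k = ((ω k)⁻¹ : ℝ) * UU ω f q k := by
  have : (ω k : ℂ) ≠ 0 := by exact_mod_cast (hω k).ne'
  simp [UU, this]

theorem deg_lt' {f q : ℂ[X]} {n : ℕ} (h : q.natDegree ≤ n) :
    (1 - q * f).natDegree < n + f.natDegree + 1 := by
  rw [← neg_sub, natDegree_neg]
  exact deg_lt h

theorem opa_rec (hω : ∀ k, 0 < ω k) {f q : ℂ[X]} {n : ℕ} (h : IsOPA ω f n q) {j : ℕ}
    (hj : j ≤ n) : act (f.map (starRingEnd ℂ)) (UU ω f q) j = 0 := by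
  have h1 := (opa_iff hω h.1).mp h _
    ⟨X ^ j, mem_degreeLE.mpr (by simpa using hj), rfl⟩
  rw [inner_eq_zero_symm, ← map_sub] at h1
  rw [LinearMap.comp_apply, LinearMap.mulRight_apply, inner_emb hω] at h1
  obtain ⟨i, rfl⟩ := Nat.exists_eq_add_of_le hj
  rw [add_assoc, add_assoc, sum_range_add, sum_eq_zero fun k hk => by
    rw [coeff_X_pow_mul', if_neg (by simpa using hk), map_zero, zero_mul], zero_add] at h1
  rw [act_apply (M := i + (f.natDegree + 1)) (natDegree_map_le.trans_lt (by omega)), ← h1]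
  simp [coeff_X_pow_mul', UU]

theorem opa_nrm (hω : ∀ k, 0 < ω k) (h0 : ω 0 = 1) {f q : ℂ[X]} {n : ℕ} (h : IsOPA ω f n q) :
    nrm (fun k => (ω k)⁻¹) (n + f.natDegree + 1) (UU ω f q) = ‖UU ω f q 0‖ := by
  have h1 := (opa_iff hω h.1).mp h _ ⟨q, mem_degreeLE.mpr (degree_le_of_natDegree_le h.1), rfl⟩
  have h2 : ⟪emb ω (n + f.natDegree + 1) (1 - q * f), emb ω _ (1 - q * f)⟫_ℂ =
      ⟪emb ω (n + f.natDegree + 1) (1 - q * f), emb ω _ 1⟫_ℂ := by
    rw [← map_sub] at h1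
    conv_lhs => rw [map_sub, inner_sub_right, ← map_sub]
    exact sub_eq_self.mpr h1
  rw [inner_self_eq_norm_sq_to_K, inner_emb hω, sum_range_succ', sum_eq_zero fun k _ => by
    simp [coeff_one]] at h2
  have h3 := congrArg norm h2
  simp only [h0, norm_pow, RCLike.norm_ofReal, abs_norm, norm_emb hω (deg_lt' h.1),
    normSq_range (deg_lt' h.1)] at h3
  rw [UU, h0]
  refine Eq.trans (sum_congr rfl fun k _ => ?_) (h3.trans (by simp [-coeff_sub]))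
  have := hω k
  rw [UU, norm_mul, Complex.norm_real, Real.norm_of_nonneg this.le]
  field_simp

theorem UU_zero {f q : ℂ[X]} {n k : ℕ} (h : q.natDegree ≤ n) (hk : n + f.natDegree < k) :
    UU ω f q k = 0 := by
  rw [UU, coeff_eq_zero_of_natDegree_lt ((Nat.le_of_lt_succ (deg_lt' h)).trans_lt hk), mul_zero]

theorem opa_nrm_le (hω : ∀ k, 0 < ω k) (h0 : ω 0 = 1) {f q : ℂ[X]} {n : ℕ} (h : IsOPA ω f n q)
    (M : ℕ) : nrm (fun k => (ω k)⁻¹) M (UU ω f q) ≤ ‖UU ω f q 0‖ := by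
  rw [← opa_nrm hω h0 h]
  refine (nrm_mono (fun k => inv_pos.mpr (hω k)) (Nat.le_add_left M (n + f.natDegree + 1)) _).trans
    (le_of_eq ?_)
  rw [nrm, sum_range_add, sum_eq_zero (s := range M) fun k _ => by
    simp [UU_zero h.1 (show n + f.natDegree < n + f.natDegree + 1 + k by omega)], add_zero, nrm]

theorem eval_eq (hω : ∀ k, 0 < ω k) {f q : ℂ[X]} {n : ℕ} (h : q.natDegree ≤ n) (z : ℂ) :
    1 - q.eval z * f.eval z =
      ∑ k ∈ range (n + f.natDegree + 1), ((ω k)⁻¹ : ℝ) * UU ω f q k * z ^ k := by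
  simpa only [eval_sub, eval_one, eval_mul, coeff_eq hω] using eval_eq_sum_range' (deg_lt' h) z

end Pool.Agent.Lib.MP_83ec3d_an
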