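import Mathlib

open Polynomial Finset

namespace Pool.Agent.Lib.MP_83ec3d_an

noncomputable def Sf : Module.End ℂ (ℕ → ℂ) := LinearMap.funLeft ℂ ℂ Nat.succ

noncomputable def act (p : ℂ[X]) (U : ℕ → ℂ) : ℕ → ℂ := aeval Sf p U

theorem Sf_pow (i : ℕ) (U : ℕ → ℂ) (j : ℕ) : (Sf ^ i) U j = U (j + i) := by
  induction i generalizing U with
  | zero => rfl
  | succ i ih => rw [pow_succ, Module.End.mul_apply, ih]; rfl

theorem act_apply {p : ℂ[X]} {M : ℕ} (h : p.natDegree < M) (U : ℕ → ℂ) (j : ℕ) :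
    act p U j = ∑ i ∈ range M, p.coeff i * U (j + i) := by
  simp [act, aeval_eq_sum_range' h, LinearMap.sum_apply, Finset.sum_apply, Sf_pow]

theorem act_mul (p q : ℂ[X]) (U : ℕ → ℂ) : act (p * q) U = act p (act q U) := by
  simp [act]

theorem act_add (p q : ℂ[X]) (U : ℕ → ℂ) : act (p + q) U = act p U + act q U := by
  simp [act]

theorem act_sub (p q : ℂ[X]) (U : ℕ → ℂ) : act (p - q) U = act p U - act q U := by
  simp [act]

theorem act_one (U : ℕ → ℂ) : act 1 U = U := by simp [act]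

theorem act_lin (l : ℂ) (U : ℕ → ℂ) (k : ℕ) : act (X - C l) U k = U (k + 1) - l * U k := by
  simp [act, Sf, Algebra.algebraMap_eq_smul_one]

theorem act_zero {p : ℂ[X]} {W : ℕ → ℂ} {n j : ℕ} (h : ∀ j < n, W j = 0)
    (hj : j + p.natDegree < n) : act p W j = 0 := by
  rw [act_apply (Nat.lt_succ_self _)]
  exact sum_eq_zero fun i hi => by rw [h _ (by have := mem_range.mp hi; omega), mul_zero]

noncomputable def nrm (a : ℕ → ℝ) (n : ℕ) (U : ℕ → ℂ) : ℝ := ∑ k ∈ range n, a k * ‖U k‖ ^ 2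

variable {a : ℕ → ℝ} {κ : ℝ}

theorem nrm_mono (ha : ∀ k, 0 < a k) {n m : ℕ} (h : n ≤ m) (U : ℕ → ℂ) : nrm a n U ≤ nrm a m U :=
  sum_le_sum_of_subset_of_nonneg (range_mono h) fun k _ _ => by have := ha k; positivity

theorem nrm_nonneg (ha : ∀ k, 0 < a k) (n : ℕ) (U : ℕ → ℂ) : 0 ≤ nrm a n U :=
  sum_nonneg fun k _ => by have := ha k; positivity

theorem le_pow_shift (h1 : 1 ≤ κ) (hκ : ∀ k, a k ≤ κ * a (k + 1)) (k i : ℕ) :
    a k ≤ κ ^ i * a (k + i) := by
  induction i with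
  | zero => simp
  | succ i ih =>
    rw [pow_succ, mul_assoc]
    exact ih.trans (mul_le_mul_of_nonneg_left (hκ _) (by positivity))

theorem nrm_act (ha : ∀ k, 0 < a k) (h1 : 1 ≤ κ) (hκ : ∀ k, a k ≤ κ * a (k + 1)) (p : ℂ[X]) :
    ∃ C, 0 ≤ C ∧ ∀ n U, nrm a n (act p U) ≤ C * nrm a (n + p.natDegree) U := by
  refine ⟨(∑ i ∈ range (p.natDegree + 1), ‖p.coeff i‖ ^ 2) *
    ∑ i ∈ range (p.natDegree + 1), κ ^ i, by positivity, fun n U => ?_⟩
  have e1 : ∀ k, ‖act p U k‖ ^ 2 ≤ (∑ i ∈ range (p.natDegree + 1), ‖p.coeff i‖ ^ 2) *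
      ∑ i ∈ range (p.natDegree + 1), ‖U (k + i)‖ ^ 2 := fun k => by
    rw [act_apply (Nat.lt_succ_self _)]
    refine le_trans ?_ (sum_mul_sq_le_sq_mul_sq _ _ _)
    gcongr
    exact (norm_sum_le _ _).trans (le_of_eq (by simp))
  have e2 : ∀ i ∈ range (p.natDegree + 1), ∑ k ∈ range n, a k * ‖U (k + i)‖ ^ 2 ≤
      κ ^ i * nrm a (n + p.natDegree) U := fun i hi => by
    refine le_trans ?_ (mul_le_mul_of_nonneg_left
      (nrm_mono ha (n := i + n) (by have := mem_range.mp hi; omega) U) (by positivity))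
    rw [nrm, sum_range_add, mul_add, mul_sum (range n)]
    refine le_add_of_nonneg_of_le (mul_nonneg (by positivity) (nrm_nonneg ha i U))
      (sum_le_sum fun k _ => ?_)
    rw [← mul_assoc, add_comm i]
    exact mul_le_mul_of_nonneg_right (le_pow_shift h1 hκ k i) (by positivity)
  rw [mul_assoc, sum_mul _ fun i => κ ^ i]
  refine le_trans ?_ (mul_le_mul_of_nonneg_left (sum_le_sum e2) (by positivity))
  rw [sum_comm, mul_sum]
  refine sum_le_sum fun k _ => ?_
  rw [← mul_sum, mul_left_comm]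
  exact mul_le_mul_of_nonneg_left (e1 k) (ha k).le

theorem sol_binom {l : ℂ} (hl : l ≠ 0) (m n : ℕ) : ∀ U : ℕ → ℂ,
    (∀ j < n, act ((X - C l) ^ m) U j = 0) →
    ∃ b : ℕ → ℂ, ∀ k < n + m, U k = l ^ k * ∑ i ∈ range m, b i * k.choose i := by
  induction m with
  | zero => exact fun U h => ⟨0, by simpa [act_one] using h⟩
  | succ m ih =>
    intro U h
    obtain ⟨b, hb⟩ := ih (act (X - C l) U) (by simpa only [pow_succ, act_mul] using h)
    refine ⟨fun i => Nat.casesOn i (U 0) fun i => b i / l, fun k hk => ?_⟩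
    induction k with
    | zero => simp [sum_range_succ']
    | succ k ik =>
      have h1 := hb k (by omega)
      rw [act_lin, sub_eq_iff_eq_add, ik (by omega)] at h1
      rw [h1, sum_range_succ', sum_range_succ']
      simp only [Nat.choose_succ_succ', Nat.cast_add, mul_add, sum_add_distrib,
        Nat.choose_zero_right, div_mul_eq_mul_div, ← sum_div]
      field_simp
      ring

theorem sol_poly {l : ℂ} (hl : l ≠ 0) {m n : ℕ} {U : ℕ → ℂ}
    (h : ∀ j < n, act ((X - C l) ^ m) U j = 0) :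
    ∃ p : ℂ[X], p.natDegree ≤ m - 1 ∧ ∀ k < n + m, U k = l ^ k * p.eval (k : ℂ) := by
  obtain ⟨b, hb⟩ := sol_binom hl m n U h
  refine ⟨∑ i ∈ range m, C (b i / i.factorial) * descPochhammer ℂ i,
    natDegree_sum_le_of_forall_le _ _ fun i hi => (natDegree_C_mul_le _ _).trans ?_,
    fun k hk => ?_⟩
  · rw [descPochhammer_natDegree]
    have := mem_range.mp hi
    omega
  · rw [hb k hk, eval_finsetSum]
    congr 1
    refine sum_congr rfl fun i _ => ?_
    have : (i.factorial : ℂ) ≠ 0 := by exact_mod_cast i.factorial_ne_zero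
    rw [eval_mul, eval_C, descPochhammer_eval_eq_descFactorial,
      Nat.descFactorial_eq_factorial_mul_choose]
    push_cast
    field_simp

def Rem (a : ℕ → ℝ) (m n : ℕ) (Γ : ℝ) : Prop :=
  ∀ p : ℂ[X], p.natDegree ≤ m → ‖p.eval 0‖ ^ 2 ≤ Γ * nrm a n fun k => p.eval (k : ℂ)

theorem reduce (ha : ∀ k, 0 < a k) (h1 : 1 ≤ κ) (hκ : ∀ k, a k ≤ κ * a (k + 1)) (μ d : ℕ) :
    ∀ F : ℂ[X], F.natDegree = d → (∀ z, F.IsRoot z → 1 ≤ ‖z‖) →
      (∀ z, F.rootMultiplicity z ≤ μ + 1) → ∃ D C, 0 ≤ C ∧ ∀ n Γ U, 0 ≤ Γ →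
        (∀ j < n + D, act F U j = 0) → Rem a μ n Γ → ‖U 0‖ ^ 2 ≤ C * Γ * nrm a (n + D) U := by
  induction d using Nat.strong_induction_on with | _ d ih => ?_
  intro F hd hr hm
  have F0 : F ≠ 0 := fun h => absurd (hr 0 (by simp [h])) (by simp)
  rcases Nat.eq_zero_or_pos d with rfl | hpos
  · refine ⟨1, 0, le_rfl, fun n Γ U _ h _ => ?_⟩
    have := h 0 (by omega)
    rw [act_apply (M := 1) (by omega), sum_range_one, mul_eq_zero] at this
    rcases this with h2 | h2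
    · exact absurd (by rw [eq_C_of_natDegree_eq_zero hd, h2, map_zero]) F0
    · simp [h2]
  obtain ⟨l, hl⟩ := IsAlgClosed.exists_root F (by
    rw [degree_eq_natDegree F0]; exact_mod_cast (hd ▸ hpos).ne')
  obtain ⟨h, e1, e2⟩ := exists_eq_pow_rootMultiplicity_mul_and_not_dvd F F0 l
  set m := F.rootMultiplicity l with hmd
  have m0 : 0 < m := (rootMultiplicity_pos F0).mpr hl
  have h0 : h ≠ 0 := fun h' => F0 (by rw [e1, h', mul_zero])
  have e3 : F.natDegree = m + h.natDegree := by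
    rw [e1, natDegree_mul (pow_ne_zero _ (X_sub_C_ne_zero l)) h0, natDegree_pow, natDegree_X_sub_C,
      mul_one]
  obtain ⟨A, B, hAB⟩ :=
    (((irreducible_X_sub_C l).coprime_iff_not_dvd.mpr e2).pow_left (m := m))
  obtain ⟨D, C0, c0, hC⟩ := ih h.natDegree (by omega) h rfl
    (fun z hz => hr z (hz.dvd (Dvd.intro_left _ e1.symm))) fun z => (le_trans (by
      rw [e1, rootMultiplicity_mul (e1 ▸ F0)]; omega) (hm z))
  obtain ⟨C1, c1, hC1⟩ := nrm_act ha h1 hκ (A * (X - C l) ^ m)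
  obtain ⟨C2, c2, hC2⟩ := nrm_act ha h1 hκ (B * h)
  have l1 := hr l hl
  refine ⟨D + A.natDegree + B.natDegree + (A * (X - C l) ^ m).natDegree + (B * h).natDegree,
    2 * (C0 * C1) + 2 * C2, by positivity, fun n Γ U hΓ hU hR => ?_⟩
  set N := nrm a (n + (D + A.natDegree + B.natDegree + (A * (X - C l) ^ m).natDegree +
    (B * h).natDegree)) U
  have a1 := hC n Γ (act (A * (X - C l) ^ m) U) hΓ (fun j hj => by
    rw [← act_mul, mul_left_comm, mul_comm h, ← e1, act_mul]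
    exact act_zero hU (by omega)) hR
  have a2 : nrm a (n + D) (act (A * (X - C l) ^ m) U) ≤ C1 * N :=
    (hC1 _ _).trans (mul_le_mul_of_nonneg_left (nrm_mono ha (by omega) U) c1)
  obtain ⟨p, p1, p2⟩ := sol_poly (l := l) (fun h => by simp [h, not_le.mpr one_pos] at l1)
    (m := m) (n := n) (U := act (B * h) U) fun j hj => by
      rw [← act_mul, mul_left_comm, ← e1, act_mul]
      exact act_zero hU (by omega)
  have a3 := hR p (by have := hm l; omega)
  have a4 : (nrm a n fun k => p.eval (k : ℂ)) ≤ C2 * N := by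
    refine le_trans (sum_le_sum fun k hk => ?_)
      ((hC2 n U).trans (mul_le_mul_of_nonneg_left (nrm_mono ha (by omega) U) c2))
    rw [p2 k (by have := mem_range.mp hk; omega), norm_mul, norm_pow]
    have := ha k
    gcongr
    exact le_mul_of_one_le_left (norm_nonneg _) (one_le_pow₀ l1)
  have a5 : U 0 = act (A * (X - C l) ^ m) U 0 + p.eval 0 := by
    have := p2 0 (by omega)
    rw [pow_zero, one_mul, Nat.cast_zero] at this
    rw [← this, ← Pi.add_apply, ← act_add, hAB, act_one]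
  have a6 := norm_add_le (act (A * (X - C l) ^ m) U 0) (p.eval 0)
  have a7 := mul_le_mul_of_nonneg_left a2 (mul_nonneg c0 hΓ)
  have a8 := mul_le_mul_of_nonneg_left a4 hΓ
  rw [← a5] at a6
  have a9 := pow_le_pow_left₀ (norm_nonneg _) a6 2
  have a10 := sq_nonneg (‖act (A * (X - C l) ^ m) U 0‖ - ‖p.eval 0‖)
  linarith

end Pool.Agent.Lib.MP_83ec3d_an
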