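import Pool.Agent.Lib.MP_83ec3d_an.Rec

open Polynomial Finset Filter Topology

namespace Pool.Agent.Lib.MP_83ec3d_an

theorem prod_cmp {η : ℝ} (hη : 0 ≤ η) (x y : ℂ) (s : Multiset ℂ)
    (h : ∀ z ∈ s, η * ‖y - z‖ ≤ ‖x - z‖) :
    η ^ s.card * ‖(s.map (y - ·)).prod‖ ≤ ‖(s.map (x - ·)).prod‖ := by
  induction s using Multiset.induction_on with
  | empty => simp
  | cons z s ih =>
    simp only [Multiset.card_cons, Multiset.map_cons, Multiset.prod_cons, norm_mul, pow_succ']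
    rw [mul_mul_mul_comm]
    exact mul_le_mul (h z (by simp)) (ih fun w hw => h w (by simp [hw])) (by positivity)
      (norm_nonneg _)

theorem eval_cmp {η : ℝ} (hη : 0 ≤ η) (x y : ℂ) (p : ℂ[X])
    (h : ∀ z ∈ p.roots, η * ‖y - z‖ ≤ ‖x - z‖) : η ^ p.natDegree * ‖p.eval y‖ ≤ ‖p.eval x‖ := by
  rw [(IsAlgClosed.splits p).eval_eq_prod_roots, (IsAlgClosed.splits p).eval_eq_prod_roots,
    norm_mul, norm_mul, mul_left_comm, ← IsAlgClosed.card_roots_eq_natDegree]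
  exact mul_le_mul_of_nonneg_left (prod_cmp hη x y _ h) (norm_nonneg _)

theorem peel {η : ℝ} (hη : 0 ≤ η) {j : ℕ} {p : ℂ[X]} (hp : p.natDegree = j + 1) :
    ∃ (r : ℝ) (q : ℂ[X]), 0 ≤ r ∧ q.natDegree ≤ j ∧ ‖p.eval 0‖ = r * ‖q.eval 0‖ ∧
      (∀ k : ℕ, k ≤ (1 - η) * r → η * r * ‖q.eval (k : ℂ)‖ ≤ ‖p.eval (k : ℂ)‖) ∧
      ∀ k : ℕ, (1 + η) * r ≤ k → η ^ (j + 1) * ‖p.eval 0‖ ≤ ‖p.eval (k : ℂ)‖ := by
  have p0 : p ≠ 0 := fun h => by simp [h] at hp
  obtain ⟨z, hz, hm⟩ := Multiset.exists_max_image (fun z : ℂ => ‖z‖) (s := p.roots) fun h => by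
    have := IsAlgClosed.card_roots_eq_natDegree (p := p)
    simp [h, hp] at this
  obtain ⟨q, hq⟩ := dvd_iff_isRoot.mpr (isRoot_of_mem_roots hz)
  have q0 : q ≠ 0 := fun h => p0 (by rw [hq, h, mul_zero])
  refine ⟨‖z‖, q, norm_nonneg _, ?_, by simp [hq], fun k hk => ?_, fun k hk => ?_⟩
  · rw [hq, natDegree_mul (X_sub_C_ne_zero z) q0, natDegree_X_sub_C] at hp
    omega
  · rw [hq, eval_mul, norm_mul]
    refine mul_le_mul_of_nonneg_right ?_ (norm_nonneg _)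
    have := norm_sub_norm_le z k
    simp only [eval_sub, eval_X, eval_C, norm_sub_rev (k : ℂ), Complex.norm_natCast] at *
    linarith
  · rw [← hp]
    refine eval_cmp hη _ _ p fun w hw => ?_
    have := norm_sub_norm_le (k : ℂ) w
    have h2 := mul_le_mul_of_nonneg_left (hm w hw) (by positivity : 0 ≤ 1 + η)
    simp only [Complex.norm_natCast, zero_sub, norm_neg] at *
    linarith

noncomputable def ps (a : ℕ → ℝ) (n : ℕ) : ℝ := ∑ k ∈ range n, a k

variable {a : ℕ → ℝ}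

theorem ps_mono (ha : ∀ k, 0 < a k) {n m : ℕ} (h : n ≤ m) : ps a n ≤ ps a m :=
  sum_le_sum_of_subset_of_nonneg (range_mono h) fun k _ _ => (ha k).le

theorem ps_pos (ha : ∀ k, 0 < a k) {n : ℕ} (h : 1 ≤ n) : 0 < ps a n :=
  sum_pos (fun k _ => ha k) ⟨0, mem_range.mpr h⟩

theorem nrm_const {p : ℂ[X]} (hp : p.natDegree ≤ 0) (x : ℕ) :
    ‖p.eval 0‖ ^ 2 * ps a x = nrm a x fun k => p.eval (k : ℂ) := by
  rw [eq_C_of_natDegree_le_zero hp]
  simp [nrm, ps, sum_mul, mul_comm]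

theorem low_part (ha : ∀ k, 0 < a k) {c t : ℝ} (hc : 0 ≤ c) {U V : ℕ → ℂ} {u : ℕ}
    (h : ∀ k : ℕ, k ≤ t → c * ‖V k‖ ≤ ‖U k‖) (hu : ∀ k < u, (k : ℝ) ≤ t) :
    c ^ 2 * nrm a u V ≤ nrm a u U := by
  rw [nrm, mul_sum]
  refine sum_le_sum fun k hk => ?_
  rw [mul_left_comm, ← mul_pow]
  have := ha k
  gcongr
  exact h k (hu k (mem_range.mp hk))

theorem high_part (ha : ∀ k, 0 < a k) {c : ℝ} (hc : 0 ≤ c) {U : ℕ → ℂ} {v x : ℕ} (hv : v ≤ x)
    (h : ∀ k, v ≤ k → k < x → c ≤ ‖U k‖) :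
    c ^ 2 * (ps a x - ps a v) ≤ nrm a x U - nrm a v U := by
  rw [ps, ps, nrm, nrm, ← sum_Ico_eq_sub _ hv, ← sum_Ico_eq_sub _ hv, mul_sum]
  refine sum_le_sum fun k hk => ?_
  rw [mul_comm]
  have := ha k
  gcongr
  exact h k (mem_Ico.mp hk).1 (mem_Ico.mp hk).2

theorem remez (ha : ∀ k, 0 < a k) {η D : ℝ} (hη : 0 < η) (hη1 : η < 1) (hD : 1 ≤ D) {n : ℕ}
    (H : ∀ u v : ℕ, 1 ≤ u → v ≤ n → ((v : ℝ) - 1) * (1 - η) < u * (1 + η) → ps a v ≤ D * ps a u)
    (j : ℕ) : ∀ p : ℂ[X], p.natDegree ≤ j → ∀ x ≤ n,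
      (η ^ j * ‖p.eval 0‖) ^ 2 * ps a x ≤ D ^ j * nrm a x fun k => p.eval (k : ℂ) := by
  induction j with
  | zero => exact fun p hp x _ => by simpa using (nrm_const hp x).le
  | succ j ih =>
    intro p hp x hx
    have n0 := nrm_nonneg ha x fun k => p.eval (k : ℂ)
    have s0 : ∀ y, 0 ≤ ps a y := fun y => sum_nonneg fun k _ => (ha k).le
    rcases hp.lt_or_eq with hp | hp
    · refine le_trans ?_ ((ih p (by omega) x hx).trans ?_)
      · have := s0 x
        gcongr ?_ ^ 2 * _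
        gcongr ?_ * _
        exact pow_le_pow_of_le_one hη.le hη1.le (by omega)
      · exact mul_le_mul_of_nonneg_right (pow_le_pow_right₀ hD (by omega)) n0
    obtain ⟨r, q, r0, q1, q2, q3, q4⟩ := peel hη.le hp
    rcases r0.eq_or_lt with rfl | r0
    · rw [q2]
      simp only [zero_mul, mul_zero, ne_eq, OfNat.ofNat_ne_zero, not_false_eq_true, zero_pow]
      positivity
    have f0 : 0 ≤ (1 - η) * r := mul_nonneg (by linarith) r0.le
    have huv : ⌊(1 - η) * r⌋₊ + 1 ≤ ⌈(1 + η) * r⌉₊ :=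
      Nat.lt_ceil.mpr ((Nat.floor_le f0).trans_lt (by nlinarith))
    set u := min x (⌊(1 - η) * r⌋₊ + 1) with hu
    set v := min x ⌈(1 + η) * r⌉₊ with hv
    have a1 := low_part ha (by positivity) q3 (u := u) fun k hk =>
      (Nat.le_floor_iff f0).mp (by omega)
    have a2 := high_part ha (c := η ^ (j + 1) * ‖p.eval 0‖) (U := fun k => p.eval (k : ℂ))
      (by positivity) (v := v) (min_le_left x _) fun k h1 h2 => q4 k (Nat.ceil_le.mp (by omega))
    have a3 := ih q q1 u (by omega)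
    have a4 : ps a v ≤ D * ps a u := by
      rcases le_total x (⌊(1 - η) * r⌋₊ + 1) with h | h
      · exact (ps_mono ha (by omega)).trans (le_mul_of_one_le_left (s0 _) hD)
      refine H u v (by omega) (by omega) ?_
      have b1 : (v : ℝ) ≤ ⌈(1 + η) * r⌉₊ := by exact_mod_cast min_le_right _ _
      have b2 := Nat.ceil_lt_add_one (by positivity : 0 ≤ (1 + η) * r)
      have b3 := Nat.lt_floor_add_one ((1 - η) * r)
      rw [hu, min_eq_right h]
      push_cast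
      calc _ ≤ (1 + η) * r * (1 - η) := mul_le_mul_of_nonneg_right (by linarith) (by linarith)
        _ = (1 - η) * r * (1 + η) := by ring
        _ < _ := mul_lt_mul_of_pos_right b3 (by positivity)
    have a5 := nrm_mono ha (show u ≤ v by omega) fun k => p.eval (k : ℂ)
    have a6 : (η ^ (j + 1) * ‖p.eval 0‖) ^ 2 * ps a v ≤
        D ^ (j + 1) * nrm a v fun k => p.eval (k : ℂ) := by
      calc _ ≤ (η ^ (j + 1) * ‖p.eval 0‖) ^ 2 * (D * ps a u) := by gcongr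
        _ = D * (η * r) ^ 2 * ((η ^ j * ‖q.eval 0‖) ^ 2 * ps a u) := by rw [q2]; ring
        _ ≤ D * (η * r) ^ 2 * (D ^ j * nrm a u fun k => q.eval (k : ℂ)) := by gcongr
        _ = D ^ (j + 1) * ((η * r) ^ 2 * nrm a u fun k => q.eval (k : ℂ)) := by ring
        _ ≤ _ := mul_le_mul_of_nonneg_left (a1.trans a5) (by positivity)
    have a7 := le_mul_of_one_le_left
      (sub_nonneg.mpr (nrm_mono ha (n := v) (min_le_left x _) fun k => p.eval (k : ℂ)))
      (one_le_pow₀ (n := j + 1) hD)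
    linarith

theorem rem_of (ha : ∀ k, 0 < a k) {η D : ℝ} (hη : 0 < η) (hη1 : η < 1) (hD : 1 ≤ D) {n : ℕ}
    (hn : 1 ≤ n)
    (H : ∀ u v : ℕ, 1 ≤ u → v ≤ n → ((v : ℝ) - 1) * (1 - η) < u * (1 + η) → ps a v ≤ D * ps a u)
    (j : ℕ) : Rem a j n (D ^ j / (η ^ j) ^ 2 / ps a n) := fun p hp => by
  have := ps_pos ha hn
  rw [div_mul_eq_mul_div, div_mul_eq_mul_div, le_div_iff₀ this, le_div_iff₀ (by positivity)]
  refine le_trans (le_of_eq ?_) (remez ha hη hη1 hD H j p hp n le_rfl)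
  ring

theorem rem_small (ha : ∀ k, 0 < a k) (hs : Tendsto (ps a) atTop atTop) (j : ℕ) :
    ∀ L : ℝ, 0 ≤ L → ∃ n, ∀ p : ℂ[X], p.natDegree ≤ j →
      L * ‖p.eval 0‖ ^ 2 ≤ nrm a n fun k => p.eval (k : ℂ) := by
  induction j with
  | zero =>
    intro L _
    obtain ⟨n, hn⟩ := (hs.eventually_ge_atTop L).exists
    refine ⟨n, fun p hp => ?_⟩
    rw [← nrm_const hp, mul_comm]
    gcongr
  | succ j ih =>
    intro L hL
    obtain ⟨n, hn⟩ := ih (4 * L) (by positivity)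
    obtain ⟨x, h1, h2⟩ := ((hs.eventually_ge_atTop (ps a (3 * n) + L * (2 ^ (j + 1)) ^ 2)).and
      (eventually_ge_atTop (3 * n))).exists
    refine ⟨x, fun p hp => ?_⟩
    have a0 := nrm_mono ha (show n ≤ x by omega) fun k => p.eval (k : ℂ)
    rcases hp.lt_or_eq with hp | hp
    · have := hn p (by omega)
      have : 0 ≤ L * ‖p.eval 0‖ ^ 2 := by positivity
      linarith
    obtain ⟨r, q, r0, q1, q2, q3, q4⟩ := peel (η := 1 / 2) (by norm_num) hp
    rcases le_total (2 * n : ℝ) r with h | h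
    · have a1 := low_part ha (by positivity) q3 (u := n) fun k hk => by
        have : (k : ℝ) ≤ n := by exact_mod_cast hk.le
        linarith
      have a2 := mul_le_mul_of_nonneg_left (hn q q1) (sq_nonneg (1 / 2 * r))
      rw [q2]
      linarith
    · have a2 := high_part ha (c := (1 / 2) ^ (j + 1) * ‖p.eval 0‖) (U := fun k => p.eval (k : ℂ))
        (by positivity) h2 fun k h1 _ => q4 k (by
          have : ((3 * n : ℕ) : ℝ) ≤ k := by exact_mod_cast h1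
          push_cast at this
          linarith)
      have a3 := nrm_nonneg ha (3 * n) fun k => p.eval (k : ℂ)
      have a4 : L * ‖p.eval 0‖ ^ 2 =
          ((1 / 2) ^ (j + 1) * ‖p.eval 0‖) ^ 2 * (L * (2 ^ (j + 1)) ^ 2) := by
        rw [one_div, inv_pow]
        field_simp
      have a5 := mul_le_mul_of_nonneg_left (le_sub_iff_add_le'.mpr h1)
        (sq_nonneg ((1 / 2) ^ (j + 1) * ‖p.eval 0‖))
      linarith

end Pool.Agent.Lib.MP_83ec3d_an
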